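import Pool.Agent.Ch3.Defs

/-!
# Normalised strip data
-/

namespace Pool.Agent.Ch3

/-- the words `(A^m B)^L` -/
def wd (m : ℕ) : ℕ → List Bool
  | 0 => []
  | L + 1 => List.replicate m false ++ (true :: wd m L)

lemma na_append (m : ℕ) (v : List Bool) : na (List.replicate m false ++ v) = m + na v := by
  induction m with
  | zero => simp
  | succ m ih => rw [List.replicate_succ, List.cons_append, na, ih]; omega

lemma nb_append (m : ℕ) (v : List Bool) : nb (List.replicate m false ++ v) = nb v := by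
  induction m with
  | zero => simp
  | succ m ih => rw [List.replicate_succ, List.cons_append, nb, ih]

lemma na_wd (m L : ℕ) : na (wd m L) = m * L := by
  induction L with
  | zero => rfl
  | succ L ih => rw [wd, na_append, na, ih]; ring

lemma nb_wd (m L : ℕ) : nb (wd m L) = L := by
  induction L with
  | zero => rfl
  | succ L ih => rw [wd, nb_append, nb, ih]

variable (q : ℂ)

lemma D_inv (w : List Bool) : q * (D q w).1 + (D q w).2.1 + (D q w).2.2 =
    (q - 2) ^ (w.length + 1) := by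
  induction w with
  | nil => simp [D]; ring
  | cons b w ih =>
    cases b
    · simp only [D, List.length_cons]
      rw [pow_succ, ← ih]; ring
    · simp only [D, List.length_cons]
      rw [pow_succ, ← ih]; ring

lemma D_replicate (m : ℕ) (v : List Bool) (h : q - 1 ≠ 0) :
    (D q (List.replicate m false ++ v)).2.1 = (-1) ^ m * (D q v).2.1 ∧
    (D q (List.replicate m false ++ v)).2.2 = (q - 2) ^ m * (D q v).2.2 -
      (D q v).2.1 * ((q - 2) ^ m - (-1) ^ m) / (q - 1) := by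
  induction m with
  | zero => simp
  | succ m ih =>
    rw [List.replicate_succ, List.cons_append]
    simp only [D]
    rw [ih.1, ih.2]
    constructor
    · ring
    · field_simp
      ring

/-- one block `A^m B` in normalised coordinates, `κ = (-1/u)^m` -/
noncomputable def Bk (u κ : ℂ) (x : ℂ × ℂ) : ℂ × ℂ :=
  (κ * (x.1 - x.2 / u), -x.2 / u - (1 - κ) * (x.1 - x.2 / u) / (u + 1))

/-- normalised data of `(A^m B)^L` -/
noncomputable def Phi (u κ : ℂ) : ℕ → ℂ × ℂ
  | 0 => (-1 / u, -1 / u)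
  | L + 1 => Bk u κ (Phi u κ L)

lemma D_wd (m L : ℕ) (h1 : q - 1 ≠ 0) (h2 : q - 2 ≠ 0) :
    (D q (wd m L)).2.1 = (q - 2) ^ ((wd m L).length + 1) *
      (Phi (q - 2) ((-1 / (q - 2)) ^ m) L).1 ∧
    (D q (wd m L)).2.2 = (q - 2) ^ ((wd m L).length + 1) *
      (Phi (q - 2) ((-1 / (q - 2)) ^ m) L).2 := by
  induction L with
  | zero =>
    simp only [wd, D, Phi, List.length_nil, zero_add, pow_one]
    constructor <;> field_simp
  | succ L ih =>
    have e : (wd m (L + 1)).length = m + ((wd m L).length + 1) := by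
      simp [wd]
    obtain ⟨h3, h4⟩ := D_replicate q m (true :: wd m L) h1
    have h5 : (-1 : ℂ) ^ m = (q - 2) ^ m * (-1 / (q - 2)) ^ m := by
      rw [← mul_pow]
      congr 1
      field_simp
    rw [e, wd, h3, h4]
    simp only [D]
    rw [ih.1, ih.2, Phi, Bk, h5]
    set κ := (-1 / (q - 2)) ^ m
    set x := Phi (q - 2) κ L
    have e2 : q - 2 + 1 = q - 1 := by ring
    rw [e2]
    constructor
    · simp only
      field_simp
      ring
    · simp only
      field_simp
      ring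

lemma Phi_zero (u : ℂ) (hu : u ≠ 0) (hu1 : u + 1 ≠ 0) (L : ℕ) :
    Phi u 0 (L + 1) = (0, (-2 / u) * (-1 / (u + 1)) ^ (L + 1)) := by
  induction L with
  | zero =>
    simp only [Phi, Bk]
    ext
    · simp
    · simp only [sub_zero, one_mul, zero_add, pow_one]
      rw [eq_comm, mul_div_assoc', div_sub_div _ _ hu hu1, div_eq_div_iff hu1
        (mul_ne_zero hu hu1)]
      field_simp
      ring
  | succ L ih =>
    rw [Phi, ih, Bk]
    ext
    · simp
    · simp only
      rw [pow_succ (-1 / (u + 1)) (L + 1)]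
      field_simp
      ring

/-- normalised chain -/
noncomputable def cd (u ζ θ : ℂ) : ℕ → ℂ × ℂ
  | 0 => (1, 0)
  | p + 1 => ((cd u ζ θ p).1 * (1 + (θ + ζ) / (u + 1)) +
      (cd u ζ θ p).2 * ((θ * u - ζ) / (u + 1) ^ 2),
      ((cd u ζ θ p).2 * (1 + (ζ + θ) * u / (u + 1)) + (cd u ζ θ p).1 * (θ - u * ζ)) * (1 / u ^ 2))

lemma H_eq (d : ℂ × ℂ × ℂ) (h0 : d.1 ≠ 0) (h1 : q - 1 ≠ 0) (h2 : q - 2 ≠ 0) (p : ℕ) :
    (H q d p).1 = ((q - 2) ^ 2 * d.1) ^ p *
      ((cd (q - 2) (d.2.1 / d.1) (d.2.2 / d.1) p).1 -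
        (cd (q - 2) (d.2.1 / d.1) (d.2.2 / d.1) p).2 / (q - 1)) ∧
    (H q d p).2 = ((q - 2) ^ 2 * d.1) ^ p *
      ((cd (q - 2) (d.2.1 / d.1) (d.2.2 / d.1) p).1 +
        (cd (q - 2) (d.2.1 / d.1) (d.2.2 / d.1) p).2 * (q - 2) / (q - 1)) := by
  induction p with
  | zero => simp [H, cd]
  | succ p ih =>
    simp only [H, S, F, cd]
    rw [ih.1, ih.2]
    set c := (cd (q - 2) (d.2.1 / d.1) (d.2.2 / d.1) p).1
    set e := (cd (q - 2) (d.2.1 / d.1) (d.2.2 / d.1) p).2
    have e2 : q - 2 + 1 = q - 1 := by ring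
    rw [e2]
    constructor
    · field_simp
      ring
    · field_simp
      ring

lemma Ptot_eq (w : List Bool) (p : ℕ) (h0 : (D q w).1 ≠ 0) (h1 : q - 1 ≠ 0) (h2 : q - 2 ≠ 0) :
    Ptot q w p = q * (q - 1) * ((q - 2) * (D q w).1 * ((q - 2) ^ 2 * (D q w).1) ^ p) *
      (1 + (q - 1) *
        (cd (q - 2) ((D q w).2.1 / (D q w).1) ((D q w).2.2 / (D q w).1) (p + 1)).1) := by
  obtain ⟨e1, e3⟩ := H_eq q (D q w) h0 h1 h2 p
  rw [Ptot]
  simp only [F, cd]
  rw [e1, e3]
  set c := (cd (q - 2) ((D q w).2.1 / (D q w).1) ((D q w).2.2 / (D q w).1) p).1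
  set e := (cd (q - 2) ((D q w).2.1 / (D q w).1) ((D q w).2.2 / (D q w).1) p).2
  have e2 : q - 2 + 1 = q - 1 := by ring
  rw [e2]
  field_simp
  ring

end Pool.Agent.Ch3
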