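import Pool.Agent.Ch3.Alg

/-!
# Estimates
-/

namespace Pool.Agent.Ch3

open Metric Filter Topology

lemma exists_zero (f : ℂ → ℂ) (c : ℂ) (r δ : ℝ) (hr : 0 < r)
    (hf : ∀ z ∈ closedBall c r, DifferentiableAt ℂ f z) (h1 : ‖f c‖ < δ)
    (h2 : ∀ z ∈ sphere c r, δ ≤ ‖f z‖) : ∃ z ∈ closedBall c r, f z = 0 := by
  by_contra hcon
  push Not at hcon
  have hδ : 0 < δ := lt_of_le_of_lt (norm_nonneg _) h1
  have hg : DiffContOnCl ℂ (fun z => (f z)⁻¹) (ball c r) := by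
    apply DifferentiableOn.diffContOnCl
    rw [closure_ball c hr.ne']
    intro z hz
    exact ((hf z hz).inv (hcon z hz)).differentiableWithinAt
  have h3 := Complex.norm_le_of_forall_mem_frontier_norm_le isBounded_ball hg (C := δ⁻¹)
    (by
      intro z hz
      rw [frontier_ball c hr.ne'] at hz
      rw [norm_inv]
      exact inv_anti₀ hδ (h2 z hz)) (subset_closure (mem_ball_self hr))
  rw [norm_inv] at h3
  have h4 : 0 < ‖f c‖ := norm_pos_iff.mpr (hcon c (mem_closedBall_self hr.le))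
  have h5 := (inv_le_inv₀ h4 hδ).mp h3
  linarith

lemma cd_bound (u ζ θ : ℂ) (ε B r : ℝ) (hε : 0 ≤ ε) (hB0 : 0 ≤ B) (hr0 : 0 ≤ r)
    (hr : ‖1 / u ^ 2‖ ≤ r)
    (h1 : ‖(θ + ζ) / (u + 1)‖ ≤ ε) (h2 : ‖(θ * u - ζ) / (u + 1) ^ 2‖ ≤ ε)
    (h3 : ‖(ζ + θ) * u / (u + 1)‖ ≤ ε) (h4 : ‖θ - u * ζ‖ ≤ ε)
    (hB : r * (1 + ε) * B + r ≤ B) (hεB : ε * B ≤ 1) (p : ℕ) :
    ‖(cd u ζ θ p).2‖ ≤ B * ε * (1 + 2 * ε) ^ p ∧ ‖(cd u ζ θ p).1‖ ≤ (1 + 2 * ε) ^ p ∧
    ‖(cd u ζ θ p).1 - (1 + (θ + ζ) / (u + 1)) ^ p‖ ≤ p * B * ε ^ 2 * (1 + 2 * ε) ^ p := by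
  induction p with
  | zero =>
    simp only [cd, pow_zero, norm_zero, norm_one, mul_one, sub_self, Nat.cast_zero, zero_mul,
      le_refl, and_true]
    exact mul_nonneg hB0 hε
  | succ p ih =>
    obtain ⟨i1, i2, i3⟩ := ih
    set A := (1 + 2 * ε) ^ p with hA
    have hA0 : 0 < A := by positivity
    have hA1 : A ≤ (1 + 2 * ε) ^ (p + 1) := by
      rw [pow_succ]; nlinarith
    have hA2 : (1 + 2 * ε) ^ (p + 1) = A * (1 + 2 * ε) := by rw [pow_succ]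
    simp only [cd]
    set c := (cd u ζ θ p).1
    set d := (cd u ζ θ p).2
    set e1 := (θ + ζ) / (u + 1)
    set e2 := (θ * u - ζ) / (u + 1) ^ 2
    set e3 := (ζ + θ) * u / (u + 1)
    set e4 := θ - u * ζ
    have n1 : ‖(1 : ℂ) + e1‖ ≤ 1 + ε := by
      calc _ ≤ ‖(1:ℂ)‖ + ‖e1‖ := norm_add_le _ _
        _ ≤ _ := by rw [norm_one]; linarith
    have n3 : ‖(1 : ℂ) + e3‖ ≤ 1 + ε := by
      calc _ ≤ ‖(1:ℂ)‖ + ‖e3‖ := norm_add_le _ _
        _ ≤ _ := by rw [norm_one]; linarith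
    refine ⟨?_, ?_, ?_⟩
    · calc ‖(d * (1 + e3) + c * e4) * (1 / u ^ 2)‖ ≤ (‖d‖ * ‖1 + e3‖ + ‖c‖ * ‖e4‖) * r := by
            rw [norm_mul]
            gcongr
            calc _ ≤ ‖d * (1 + e3)‖ + ‖c * e4‖ := norm_add_le _ _
              _ = _ := by rw [norm_mul, norm_mul]
        _ ≤ ((B * ε * A) * (1 + ε) + A * ε) * r := by gcongr
        _ = ε * A * (r * (1 + ε) * B + r) := by ring
        _ ≤ ε * A * B := by gcongr
        _ = B * ε * A := by ring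
        _ ≤ _ := by gcongr
    · calc ‖c * (1 + e1) + d * e2‖ ≤ ‖c‖ * ‖1 + e1‖ + ‖d‖ * ‖e2‖ := by
            calc _ ≤ ‖c * (1 + e1)‖ + ‖d * e2‖ := norm_add_le _ _
              _ = _ := by rw [norm_mul, norm_mul]
        _ ≤ A * (1 + ε) + (B * ε * A) * ε := by gcongr
        _ = A * (1 + ε + (ε * B) * ε) := by ring
        _ ≤ A * (1 + ε + 1 * ε) := by gcongr
        _ = _ := by rw [hA2]; ring
    · have hsplit : c * (1 + e1) + d * e2 - (1 + e1) ^ (p + 1) =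
        (c - (1 + e1) ^ p) * (1 + e1) + d * e2 := by ring
      rw [hsplit]
      calc _ ≤ ‖c - (1 + e1) ^ p‖ * ‖1 + e1‖ + ‖d‖ * ‖e2‖ := by
            calc _ ≤ ‖(c - (1 + e1) ^ p) * (1 + e1)‖ + ‖d * e2‖ := norm_add_le _ _
              _ = _ := by rw [norm_mul, norm_mul]
        _ ≤ (p * B * ε ^ 2 * A) * (1 + ε) + (B * ε * A) * ε := by gcongr
        _ ≤ (p * B * ε ^ 2 * A) * (1 + 2 * ε) + (B * ε * A) * ε * (1 + 2 * ε) := by
            have : 0 ≤ (B * ε * A) * ε := by positivity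
            have h5 : 0 ≤ (p * B * ε ^ 2 * A) := by positivity
            nlinarith
        _ = _ := by rw [hA2]; push_cast; ring

lemma cd_close (r K : ℝ) (hr0 : 0 ≤ r) (hr : r < 1) (hK : 0 ≤ K) :
    ∃ C : ℝ, 0 ≤ C ∧ ∃ ε0 : ℝ, 0 < ε0 ∧ ∀ (u ζ θ : ℂ) (ε : ℝ) (P : ℕ), 0 ≤ ε → ε ≤ ε0 →
      ‖1 / u ^ 2‖ ≤ r → ‖(θ + ζ) / (u + 1)‖ ≤ ε → ‖(θ * u - ζ) / (u + 1) ^ 2‖ ≤ ε →
      ‖(ζ + θ) * u / (u + 1)‖ ≤ ε → ‖θ - u * ζ‖ ≤ ε → P * ε ≤ K →
      ‖(cd u ζ θ P).1 - (1 + (θ + ζ) / (u + 1)) ^ P‖ ≤ C * ε := by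
  set B := 2 / (1 - r) with hB
  have h1r : 0 < 1 - r := by linarith
  have hB0 : 0 < B := by positivity
  refine ⟨K * B * Real.exp (2 * K), by positivity, (1 - r) / 4, by positivity, ?_⟩
  intro u ζ θ ε P hε hε0 h0 h1 h2 h3 h4 hP
  have hb := (cd_bound u ζ θ ε B r hε hB0.le hr0 h0 h1 h2 h3 h4 ?_ ?_ P).2.2
  · refine hb.trans ?_
    have e1 : (1 + 2 * ε) ^ P ≤ Real.exp (2 * K) := by
      calc (1 + 2 * ε) ^ P ≤ (Real.exp (2 * ε)) ^ P := by
            gcongr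
            have := Real.add_one_le_exp (2 * ε)
            linarith
        _ = Real.exp (P * (2 * ε)) := by rw [Real.exp_nat_mul]
        _ ≤ _ := by
            apply Real.exp_le_exp.mpr
            linarith
    calc (P : ℝ) * B * ε ^ 2 * (1 + 2 * ε) ^ P = (P * ε) * B * ε * (1 + 2 * ε) ^ P := by ring
      _ ≤ K * B * ε * Real.exp (2 * K) := by gcongr
      _ = _ := by ring
  · have h5 : B * (1 - r) = 2 := by rw [hB]; field_simp
    have h6 : r * ε ≤ (1 - r) / 4 := by nlinarith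
    have h7 : B * (r * ε) ≤ B * ((1 - r) / 4) := by gcongr
    nlinarith
  · have h5 : B * (1 - r) = 2 := by rw [hB]; field_simp
    have h7 : ε * B ≤ (1 - r) / 4 * B := by gcongr
    nlinarith

/-- continuity of `Phi` -/
lemma Phi_cont (L : ℕ) (s : Set (ℂ × ℂ)) (hs : ∀ x ∈ s, x.1 ≠ 0 ∧ x.1 - 1 ≠ 0) :
    ContinuousOn (fun x : ℂ × ℂ => Phi (x.1 - 1) x.2 L) s := by
  induction L with
  | zero =>
    simp only [Phi]
    apply ContinuousOn.prodMk
    · exact continuousOn_const.div (by fun_prop) (fun x hx => (hs x hx).2)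
    · exact continuousOn_const.div (by fun_prop) (fun x hx => (hs x hx).2)
  | succ L ih =>
    have i1 : ContinuousOn (fun x : ℂ × ℂ => (Phi (x.1 - 1) x.2 L).1) s := ih.fst
    have i2 : ContinuousOn (fun x : ℂ × ℂ => (Phi (x.1 - 1) x.2 L).2) s := ih.snd
    have i3 : ContinuousOn (fun x : ℂ × ℂ => (Phi (x.1 - 1) x.2 L).2 / (x.1 - 1)) s :=
      i2.div (by fun_prop) (fun x hx => (hs x hx).2)
    have i5 : ContinuousOn (fun x : ℂ × ℂ => -(Phi (x.1 - 1) x.2 L).2 / (x.1 - 1)) s :=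
      i2.neg.div (by fun_prop) (fun x hx => (hs x hx).2)
    have i4 : ContinuousOn (fun x : ℂ × ℂ => x.2) s := by fun_prop
    have i6 : ContinuousOn (fun x : ℂ × ℂ => x.1 - 1 + 1) s := by fun_prop
    simp only [Phi, Bk]
    apply ContinuousOn.prodMk
    · exact i4.mul (i1.sub i3)
    · exact i5.sub (((continuousOn_const.sub i4).mul (i1.sub i3)).div i6
        (fun x hx => by rw [sub_add_cancel]; exact (hs x hx).1))

/-- differentiability of `Phi` -/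
lemma Phi_diff (m L : ℕ) (z : ℂ) (h0 : z ≠ 0) (h1 : z - 1 ≠ 0) :
    DifferentiableAt ℂ (fun z => (Phi (z - 1) ((-1 / (z - 1)) ^ m) L).1) z ∧
    DifferentiableAt ℂ (fun z => (Phi (z - 1) ((-1 / (z - 1)) ^ m) L).2) z := by
  have hu : DifferentiableAt ℂ (fun z : ℂ => z - 1) z := by fun_prop
  have hi : DifferentiableAt ℂ (fun z : ℂ => -1 / (z - 1)) z :=
    (differentiableAt_const _).div hu h1
  have hk : DifferentiableAt ℂ (fun z : ℂ => (-1 / (z - 1)) ^ m) z := hi.pow m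
  induction L with
  | zero =>
    simp only [Phi]
    exact ⟨hi, hi⟩
  | succ L ih =>
    obtain ⟨i1, i2⟩ := ih
    have i3 := i2.div hu h1
    have i5 := i2.neg.div hu h1
    have i6 : DifferentiableAt ℂ (fun z : ℂ => z - 1 + 1) z := by fun_prop
    simp only [Phi, Bk]
    refine ⟨hk.mul (i1.sub i3), ?_⟩
    exact i5.sub ((((differentiableAt_const _).sub hk).mul (i1.sub i3)).div i6
      (by rw [sub_add_cancel]; exact h0))

lemma cd_diff (ζ θ : ℂ → ℂ) (z : ℂ) (h0 : z ≠ 0) (h1 : z - 1 ≠ 0)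
    (hζ : DifferentiableAt ℂ ζ z) (hθ : DifferentiableAt ℂ θ z) (p : ℕ) :
    DifferentiableAt ℂ (fun z => (cd (z - 1) (ζ z) (θ z) p).1) z ∧
    DifferentiableAt ℂ (fun z => (cd (z - 1) (ζ z) (θ z) p).2) z := by
  have hu : DifferentiableAt ℂ (fun z : ℂ => z - 1) z := by fun_prop
  have hu1 : DifferentiableAt ℂ (fun z : ℂ => z - 1 + 1) z := by fun_prop
  have hne : z - 1 + 1 ≠ 0 := by rw [sub_add_cancel]; exact h0
  induction p with
  | zero => simp only [cd]; exact ⟨differentiableAt_const _, differentiableAt_const _⟩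
  | succ p ih =>
    obtain ⟨i1, i2⟩ := ih
    simp only [cd]
    constructor
    · refine (i1.mul ((differentiableAt_const _).add ((hθ.add hζ).div hu1 hne))).add
        (i2.mul ((((hθ.mul hu).sub hζ)).div (hu1.pow 2) (pow_ne_zero 2 hne)))
    · refine ((i2.mul ((differentiableAt_const _).add (((hζ.add hθ).mul hu).div hu1 hne))).add
        (i1.mul (hθ.sub (hu.mul hζ)))).mul
        ((differentiableAt_const _).div (hu.pow 2) (pow_ne_zero 2 h1))

end Pool.Agent.Ch3
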