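import Pool.Agent.Ch3.Ana1

/-!
# Zeros of the chromatic polynomials
-/

namespace Pool.Agent.Ch3

open Metric Filter Topology Complex

lemma exists_m (z0 : ℂ) (δ0 ρ : ℝ) (hρ : 1 < ρ)
    (hb : ∀ z ∈ closedBall z0 δ0, ρ ≤ ‖z‖ ∧ ρ ≤ ‖z - 1‖) (L : ℕ) (η : ℝ) (hη : 0 < η) :
    ∃ m : ℕ, 0 < m ∧ ∀ z ∈ closedBall z0 δ0,
      ‖(Phi (z - 1) ((-1 / (z - 1)) ^ m) (L + 1)).1‖ ≤ η ∧
      ‖(Phi (z - 1) ((-1 / (z - 1)) ^ m) (L + 1)).2 - (-2 / (z - 1)) * (-1 / z) ^ (L + 1)‖ ≤ η := by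
  have hne : ∀ z ∈ closedBall z0 δ0, z ≠ 0 ∧ z - 1 ≠ 0 := by
    intro z hz
    obtain ⟨h1, h2⟩ := hb z hz
    constructor
    · intro h; rw [h, norm_zero] at h1; linarith
    · intro h; rw [h, norm_zero] at h2; linarith
  have hcont : ContinuousOn (fun x : ℂ × ℂ => Phi (x.1 - 1) x.2 (L + 1))
      (closedBall z0 δ0 ×ˢ closedBall (0:ℂ) 1) :=
    Phi_cont (L + 1) _ (fun x hx => hne x.1 hx.1)
  have hcomp : IsCompact (closedBall z0 δ0 ×ˢ closedBall (0:ℂ) 1) :=
    (isCompact_closedBall _ _).prod (isCompact_closedBall _ _)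
  have huc := hcomp.uniformContinuousOn_of_continuous hcont
  rw [Metric.uniformContinuousOn_iff] at huc
  obtain ⟨δ', hδ', h⟩ := huc η hη
  have hρ1 : ρ⁻¹ < 1 := inv_lt_one_of_one_lt₀ hρ
  obtain ⟨m, hm⟩ := exists_pow_lt_of_lt_one hδ' hρ1
  refine ⟨m + 1, Nat.succ_pos _, ?_⟩
  intro z hz
  obtain ⟨hz1, hz2⟩ := hb z hz
  obtain ⟨hz3, hz4⟩ := hne z hz
  have hρ0 : 0 < ρ := by linarith
  have k1 : ‖(-1 / (z - 1)) ^ (m + 1)‖ ≤ ρ⁻¹ ^ (m + 1) := by
    rw [norm_pow, norm_div, norm_neg, norm_one, one_div]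
    gcongr
  have k2 : ρ⁻¹ ^ (m + 1) ≤ ρ⁻¹ ^ m :=
    pow_le_pow_of_le_one (inv_nonneg.mpr hρ0.le) hρ1.le (Nat.le_succ m)
  have k3 : ρ⁻¹ ^ m ≤ 1 := pow_le_one₀ (inv_nonneg.mpr hρ0.le) hρ1.le
  have h1 := h (z, (-1 / (z - 1)) ^ (m + 1)) ⟨hz, by
    rw [mem_closedBall, dist_zero_right]; linarith⟩ (z, 0) ⟨hz, by simp⟩ (by
    rw [Prod.dist_eq]
    simp only [dist_self, dist_zero_right]
    rw [max_eq_right (norm_nonneg _)]
    linarith)
  simp only at h1
  rw [Phi_zero (z - 1) hz4 (by rw [sub_add_cancel]; exact hz3) L, sub_add_cancel,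
    Prod.dist_eq] at h1
  simp only at h1
  constructor
  · have := lt_of_le_of_lt (le_max_left _ _) h1
    rw [dist_zero_right] at this
    exact this.le
  · have := lt_of_le_of_lt (le_max_right _ _) h1
    rw [dist_eq_norm] at this
    exact this.le

lemma tendsto_of_bound {α : Type*} {l : Filter α} {f : α → ℂ} {g : α → ℝ}
    (h : ∀ᶠ x in l, ‖f x‖ ≤ g x) (hg : Tendsto g l (𝓝 0)) : Tendsto f l (𝓝 0) :=
  squeeze_zero_norm' h hg

theorem main_zero (z0 : ℂ) (h0 : 1 < ‖z0‖) (h1 : 1 < ‖z0 - 1‖) (ε : ℝ) (hε : 0 < ε) :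
    ∃ (m L p : ℕ) (q : ℂ), 0 < m ∧ 0 < L ∧ 1 ≤ p ∧ ‖q - (z0 + 1)‖ < ε ∧
      Ptot q (wd m L) p = 0 := by
  -- constants
  obtain ⟨δ0, hδ0, hδ1, hδ2, hδε⟩ : ∃ δ0 : ℝ, 0 < δ0 ∧ 1 + 2 * δ0 ≤ ‖z0‖ ∧
      1 + 2 * δ0 ≤ ‖z0 - 1‖ ∧ δ0 < ε := by
    refine ⟨min (min ((‖z0‖ - 1) / 2) ((‖z0 - 1‖ - 1) / 2)) (ε / 2), ?_, ?_, ?_, ?_⟩
    · apply lt_min
      · apply lt_min <;> linarith
      · linarith
    · have := (min_le_left (min ((‖z0‖ - 1) / 2) ((‖z0 - 1‖ - 1) / 2)) (ε / 2)).trans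
        (min_le_left _ _)
      linarith
    · have := (min_le_left (min ((‖z0‖ - 1) / 2) ((‖z0 - 1‖ - 1) / 2)) (ε / 2)).trans
        (min_le_right _ _)
      linarith
    · have := (min_le_right (min ((‖z0‖ - 1) / 2) ((‖z0 - 1‖ - 1) / 2)) (ε / 2))
      linarith
  set ρ := 1 + δ0 with hρdef
  have hρ : 1 < ρ := by linarith
  have hb : ∀ z ∈ closedBall z0 δ0, ρ ≤ ‖z‖ ∧ ρ ≤ ‖z - 1‖ := by
    intro z hz
    rw [mem_closedBall, dist_eq_norm] at hz
    constructor
    · have : ‖z0‖ ≤ ‖z‖ + ‖z - z0‖ := by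
        calc ‖z0‖ = ‖z - (z - z0)‖ := by congr 1; ring
          _ ≤ _ := norm_sub_le _ _
      linarith
    · have : ‖z0 - 1‖ ≤ ‖z - 1‖ + ‖z - z0‖ := by
        calc ‖z0 - 1‖ = ‖(z - 1) - (z - z0)‖ := by congr 1; ring
          _ ≤ _ := norm_sub_le _ _
      linarith
  have hz00 : z0 ≠ 0 := by intro h; rw [h, norm_zero] at h0; linarith
  have hz01 : z0 - 1 ≠ 0 := by intro h; rw [h, norm_zero] at h1; linarith
  have hz0m : z0 + 1 ≠ 0 := by
    intro h
    have : z0 = -1 := by linear_combination h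
    rw [this, norm_neg, norm_one] at h0
    linarith
  set a : ℕ → ℝ := fun n => ‖z0‖ ^ (n + 1) with ha
  have hapos : ∀ n, 0 < a n := fun n => by simp only [ha]; positivity
  have ha1 : ∀ n, 1 ≤ a n := fun n => one_le_pow₀ h0.le
  have hainf : Tendsto a atTop atTop :=
    (tendsto_pow_atTop_atTop_of_one_lt h0).comp (tendsto_add_atTop_nat 1)
  choose m hm0 hm using fun n => exists_m z0 δ0 ρ hρ hb n ((a n)⁻¹ ^ 2) (by
    have := hapos n; positivity)
  set om : ℕ → ℂ := fun n => (-1 / z0) ^ (n + 1) * (a n : ℂ) with hom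
  have hom1 : ∀ n, om n ∈ sphere (0:ℂ) 1 := by
    intro n
    rw [mem_sphere, dist_zero_right]
    simp only [hom, ha]
    rw [norm_mul, norm_pow, norm_div, norm_neg, norm_one]
    rw [ofReal_pow, norm_pow, norm_real, norm_norm, ← mul_pow]
    rw [one_div, inv_mul_cancel₀ (by linarith), one_pow]
  obtain ⟨ω, hω, φ, hφ, hlim⟩ := (isCompact_sphere (0:ℂ) 1).tendsto_subseq hom1
  have hω0 : ω ≠ 0 := by
    intro h
    rw [h, mem_sphere, dist_self] at hω
    exact one_ne_zero hω.symm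
  set E : ℂ := (z0 + 1) / z0 * ((-2 / (z0 - 1)) * ω) with hE
  have hE0 : E ≠ 0 := by
    rw [hE]
    apply mul_ne_zero (div_ne_zero hz0m hz00)
    exact mul_ne_zero (div_ne_zero (by norm_num) hz01) hω0
  set lam : ℂ := Complex.log (-1 / z0) with hlam
  have hexplam : Complex.exp lam = -1 / z0 := Complex.exp_log (div_ne_zero (by norm_num) hz00)
  have hlam0 : lam ≠ 0 := by
    intro h
    rw [h, Complex.exp_zero] at hexplam
    rw [eq_div_iff hz00] at hexplam
    apply hz0m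
    linear_combination hexplam
  set τs : ℂ := -Complex.log (lam / E) with hτs
  have hexpτ : Complex.exp (-τs) = lam / E := by
    rw [hτs, neg_neg]
    exact Complex.exp_log (div_ne_zero hlam0 hE0)
  set F : ℂ → ℂ := fun τ => 1 + z0 * Complex.exp (E * Complex.exp (-τ)) with hF
  have hFτ : F τs = 0 := by
    simp only [hF]
    rw [hexpτ, mul_div_cancel₀ _ hE0, hexplam]
    field_simp
    ring
  have hFd : HasDerivAt F (z0 * (Complex.exp (E * Complex.exp (-τs)) *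
      (E * (Complex.exp (-τs) * (-1))))) τs := by
    have d1 : HasDerivAt (fun τ : ℂ => -τ) (-1) τs := (hasDerivAt_id τs).neg
    have d2 := d1.cexp
    have d3 := d2.const_mul E
    have d4 := d3.cexp
    have d5 := d4.const_mul z0
    exact d5.const_add 1
  have hFne : z0 * (Complex.exp (E * Complex.exp (-τs)) *
      (E * (Complex.exp (-τs) * (-1)))) ≠ 0 := by
    apply mul_ne_zero hz00
    apply mul_ne_zero (Complex.exp_ne_zero _)
    apply mul_ne_zero hE0
    exact mul_ne_zero (Complex.exp_ne_zero _) (by norm_num)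
  have hFcont : Continuous F := by
    simp only [hF]; fun_prop
  obtain ⟨r, hr, hrF⟩ : ∃ r > 0, ∀ z ∈ sphere τs r, F z ≠ 0 := by
    have h2 := hFd.eventually_ne (c := 0) hFne
    rw [eventually_nhdsWithin_iff, Metric.eventually_nhds_iff] at h2
    obtain ⟨r0, hr0, h3⟩ := h2
    refine ⟨r0 / 2, by linarith, ?_⟩
    intro z hz
    rw [mem_sphere] at hz
    apply h3
    · rw [hz]; linarith
    · simp only [Set.mem_compl_iff, Set.mem_singleton_iff]
      rintro rfl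
      rw [dist_self] at hz
      linarith
  obtain ⟨δ, hδ, hδF⟩ : ∃ δ > 0, ∀ z ∈ sphere τs r, δ ≤ ‖F z‖ := by
    obtain ⟨w, hw, hwmin⟩ := (isCompact_sphere τs r).exists_isMinOn
      (NormedSpace.sphere_nonempty.mpr hr.le) (hFcont.norm.continuousOn)
    exact ⟨‖F w‖, norm_pos_iff.mpr (hrF w hw), fun z hz => hwmin hz⟩
  -- the filter
  set l : Filter (ℕ × ℂ) := atTop ×ˢ 𝓟 (closedBall τs r) with hl
  set T : ℝ := ‖τs‖ + r with hT
  have hτ : ∀ᶠ x in l, ‖x.2‖ ≤ T := by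
    have : ∀ᶠ x : ℕ × ℂ in l, x.2 ∈ closedBall τs r := by
      rw [hl]
      exact (tendsto_snd.eventually (eventually_principal.mpr (fun x hx => hx)))
    filter_upwards [this] with x hx
    rw [mem_closedBall, dist_eq_norm] at hx
    calc ‖x.2‖ = ‖τs + (x.2 - τs)‖ := by congr 1; ring
      _ ≤ ‖τs‖ + ‖x.2 - τs‖ := norm_add_le _ _
      _ ≤ _ := by linarith
  have hfst : Tendsto (fun x : ℕ × ℂ => φ x.1) l atTop := hφ.tendsto_atTop.comp tendsto_fst
  set aa : ℕ × ℂ → ℝ := fun x => a (φ x.1) with haa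
  have haainf : Tendsto aa l atTop := hainf.comp hfst
  have haai : Tendsto (fun x => (aa x)⁻¹) l (𝓝 0) := tendsto_inv_atTop_zero.comp haainf
  have haa1 : ∀ x, 1 ≤ aa x := fun x => ha1 _
  have haapos : ∀ x, 0 < aa x := fun x => hapos _
  have haai1 : ∀ x, (aa x)⁻¹ ≤ 1 := fun x => inv_le_one_of_one_le₀ (haa1 x)
  set zf : ℕ × ℂ → ℂ := fun x => z0 * Complex.exp (x.2 / ((φ x.1 + 1 : ℕ) : ℂ)) with hzf
  have hsmall : Tendsto (fun x : ℕ × ℂ => x.2 / ((φ x.1 + 1 : ℕ) : ℂ)) l (𝓝 0) := by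
    have h2 : Tendsto (fun n : ℕ => T / ((n : ℝ) + 1)) atTop (𝓝 0) := by
      have := tendsto_one_div_add_atTop_nhds_zero_nat (𝕜 := ℝ)
      simpa using this.const_mul T |>.congr (fun n => by ring)
    refine tendsto_of_bound (g := fun x => T / ((φ x.1 : ℝ) + 1)) ?_ (h2.comp hfst)
    filter_upwards [hτ] with x hx
    rw [norm_div, Complex.norm_natCast]
    push_cast
    gcongr
  have hz : Tendsto zf l (𝓝 z0) := by
    have h2 : Tendsto (fun x => Complex.exp (x.2 / ((φ x.1 + 1 : ℕ) : ℂ))) l (𝓝 1) := by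
      have := (Complex.continuous_exp.tendsto 0).comp hsmall
      rwa [Complex.exp_zero] at this
    have h3 := h2.const_mul z0
    rw [mul_one] at h3
    exact h3
  have hzb : ∀ᶠ x in l, zf x ∈ closedBall z0 δ0 := hz.eventually (closedBall_mem_nhds z0 hδ0)
  have hpow : ∀ x, (-1 / zf x) ^ (φ x.1 + 1) = (-1 / z0) ^ (φ x.1 + 1) * Complex.exp (-x.2) := by
    intro x
    have h2 : Complex.exp (x.2 / ((φ x.1 + 1 : ℕ) : ℂ)) ^ (φ x.1 + 1) = Complex.exp x.2 := by
      rw [← Complex.exp_nat_mul]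
      congr 1
      have : ((φ x.1 + 1 : ℕ) : ℂ) ≠ 0 := Nat.cast_ne_zero.mpr (Nat.succ_ne_zero (φ x.1))
      field_simp
    simp only [hzf]
    rw [Complex.exp_neg, ← h2, ← inv_pow, ← mul_pow]
    congr 1
    rw [div_mul_eq_div_div, div_eq_mul_inv (-1 / z0)]
  set x1 : ℕ × ℂ → ℂ := fun x =>
    (Phi (zf x - 1) ((-1 / (zf x - 1)) ^ (m (φ x.1))) (φ x.1 + 1)).1 with hx1def
  set y1 : ℕ × ℂ → ℂ := fun x =>
    (Phi (zf x - 1) ((-1 / (zf x - 1)) ^ (m (φ x.1))) (φ x.1 + 1)).2 with hy1def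
  have hx1 : ∀ᶠ x in l, ‖x1 x‖ ≤ (aa x)⁻¹ ^ 2 := by
    filter_upwards [hzb] with x hx
    exact (hm (φ x.1) (zf x) hx).1
  have hy1 : ∀ᶠ x in l, ‖y1 x - (-2 / (zf x - 1)) * ((-1 / z0) ^ (φ x.1 + 1) *
      Complex.exp (-x.2))‖ ≤ (aa x)⁻¹ ^ 2 := by
    filter_upwards [hzb] with x hx
    rw [← hpow]
    exact (hm (φ x.1) (zf x) hx).2
  set K1 : ℝ := 1 + 2 * Real.exp T with hK1
  have hK1pos : 0 < K1 := by positivity
  have hexpb : ∀ x : ℕ × ℂ, ‖x.2‖ ≤ T → ‖Complex.exp (-x.2)‖ ≤ Real.exp T := by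
    intro x hx
    rw [Complex.norm_exp]
    apply Real.exp_le_exp.mpr
    have := Complex.abs_re_le_norm x.2
    rw [Complex.neg_re]
    linarith [neg_abs_le x.2.re]
  have hexpb' : ∀ x : ℕ × ℂ, ‖x.2‖ ≤ T → ‖Complex.exp (x.2)‖ ≤ Real.exp T := by
    intro x hx
    rw [Complex.norm_exp]
    apply Real.exp_le_exp.mpr
    have := Complex.abs_re_le_norm x.2
    linarith [le_abs_self x.2.re]
  have hpn : ∀ x : ℕ × ℂ, ‖(-1 / z0) ^ (φ x.1 + 1)‖ = (aa x)⁻¹ := by
    intro x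
    rw [norm_pow, norm_div, norm_neg, norm_one, one_div]
    simp only [haa, ha]
    rw [inv_pow]
  have hxb : ∀ᶠ x in l, ‖x1 x‖ ≤ K1 * (aa x)⁻¹ := by
    filter_upwards [hx1] with x hx
    have h2 := haai1 x
    have h3 : 0 < (aa x)⁻¹ := inv_pos.mpr (haapos x)
    have h4 : 1 ≤ K1 := by rw [hK1]; have := Real.exp_pos T; linarith
    nlinarith
  have hyb : ∀ᶠ x in l, ‖y1 x‖ ≤ K1 * (aa x)⁻¹ := by
    filter_upwards [hy1, hτ, hzb] with x hx hx2 hx3
    have h2 := haai1 x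
    have h3 : 0 < (aa x)⁻¹ := inv_pos.mpr (haapos x)
    have h4 : ‖(-2 / (zf x - 1)) * ((-1 / z0) ^ (φ x.1 + 1) * Complex.exp (-x.2))‖ ≤
        2 * ((aa x)⁻¹ * Real.exp T) := by
      rw [norm_mul, norm_mul, hpn, norm_div, norm_neg]
      have h5 : (1:ℝ) ≤ ‖zf x - 1‖ := by have := (hb _ hx3).2; linarith
      have h6 : ‖(2:ℂ)‖ / ‖zf x - 1‖ ≤ 2 := by
        rw [Complex.norm_ofNat]
        exact div_le_self (by norm_num) h5
      have := hexpb x hx2
      gcongr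
    calc ‖y1 x‖ = ‖(y1 x - (-2 / (zf x - 1)) * ((-1 / z0) ^ (φ x.1 + 1) * Complex.exp (-x.2))) +
        (-2 / (zf x - 1)) * ((-1 / z0) ^ (φ x.1 + 1) * Complex.exp (-x.2))‖ := by congr 1; ring
      _ ≤ (aa x)⁻¹ ^ 2 + 2 * ((aa x)⁻¹ * Real.exp T) := (norm_add_le _ _).trans (by linarith)
      _ ≤ _ := by rw [hK1]; nlinarith
  set σ : ℕ × ℂ → ℂ := fun x => x1 x + y1 x with hσdef
  have hσb : ∀ᶠ x in l, ‖σ x‖ ≤ 2 * K1 * (aa x)⁻¹ := by
    filter_upwards [hxb, hyb] with x hx hy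
    calc _ ≤ ‖x1 x‖ + ‖y1 x‖ := norm_add_le _ _
      _ ≤ _ := by linarith
  have hσ0 : Tendsto σ l (𝓝 0) := by
    refine tendsto_of_bound hσb ?_
    simpa using haai.const_mul (2 * K1)
  have hσh : ∀ᶠ x in l, ‖σ x‖ ≤ 1 / 2 := by
    have := hσ0.eventually (closedBall_mem_nhds (0:ℂ) (show (0:ℝ) < 1 / 2 by norm_num))
    filter_upwards [this] with x hx
    rwa [dist_zero_right] at hx
  have h1σ : ∀ x, ‖σ x‖ ≤ 1 / 2 → 1 / 2 ≤ ‖1 - σ x‖ := by
    intro x hx
    have : ‖(1:ℂ)‖ ≤ ‖1 - σ x‖ + ‖σ x‖ := by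
      calc ‖(1:ℂ)‖ = ‖(1 - σ x) + σ x‖ := by congr 1; ring
        _ ≤ _ := norm_add_le _ _
    rw [norm_one] at this
    linarith
  set ζ : ℕ × ℂ → ℂ := fun x => (zf x + 1) * x1 x / (1 - σ x) with hζ
  set θ : ℕ × ℂ → ℂ := fun x => (zf x + 1) * y1 x / (1 - σ x) with hθ
  set Z : ℝ := ‖z0‖ + δ0 + 1 with hZ
  have hZ1 : 1 ≤ Z := by have := norm_nonneg z0; rw [hZ]; linarith
  have hzn : ∀ᶠ x in l, ‖zf x‖ ≤ Z ∧ ‖zf x + 1‖ ≤ Z ∧ ‖zf x - 1‖ ≤ Z := by
    filter_upwards [hzb] with x hx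
    rw [mem_closedBall, dist_eq_norm] at hx
    have h2 : ‖zf x‖ ≤ ‖z0‖ + δ0 := by
      calc ‖zf x‖ = ‖z0 + (zf x - z0)‖ := by congr 1; ring
        _ ≤ ‖z0‖ + ‖zf x - z0‖ := norm_add_le _ _
        _ ≤ _ := by linarith
    refine ⟨by linarith, ?_, ?_⟩
    · calc _ ≤ ‖zf x‖ + ‖(1:ℂ)‖ := norm_add_le _ _
        _ ≤ _ := by rw [norm_one]; linarith
    · calc _ ≤ ‖zf x‖ + ‖(1:ℂ)‖ := norm_sub_le _ _
        _ ≤ _ := by rw [norm_one]; linarith
  set K2 : ℝ := 2 * Z * K1 with hK2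
  have hK2pos : 0 < K2 := by positivity
  have hζb : ∀ᶠ x in l, ‖ζ x‖ ≤ K2 * (aa x)⁻¹ := by
    filter_upwards [hxb, hσh, hzn] with x hx hx2 hx3
    have h2 := h1σ x hx2
    have h3 : 0 < (aa x)⁻¹ := inv_pos.mpr (haapos x)
    simp only [hζ]
    rw [norm_div, norm_mul, div_le_iff₀ (by linarith)]
    calc ‖zf x + 1‖ * ‖x1 x‖ ≤ Z * (K1 * (aa x)⁻¹) := by
          gcongr
          exact hx3.2.1
      _ = K2 * (aa x)⁻¹ * (1 / 2) := by rw [hK2]; ring
      _ ≤ _ := by gcongr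
  have hθb : ∀ᶠ x in l, ‖θ x‖ ≤ K2 * (aa x)⁻¹ := by
    filter_upwards [hyb, hσh, hzn] with x hx hx2 hx3
    have h2 := h1σ x hx2
    have h3 : 0 < (aa x)⁻¹ := inv_pos.mpr (haapos x)
    simp only [hθ]
    rw [norm_div, norm_mul, div_le_iff₀ (by linarith)]
    calc ‖zf x + 1‖ * ‖y1 x‖ ≤ Z * (K1 * (aa x)⁻¹) := by
          gcongr
          exact hx3.2.1
      _ = K2 * (aa x)⁻¹ * (1 / 2) := by rw [hK2]; ring
      _ ≤ _ := by gcongr
  set K : ℝ := 2 * (Z + 1) * K2 with hK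
  have hKpos : 0 < K := by positivity
  set e1 : ℕ × ℂ → ℂ := fun x => (θ x + ζ x) / (zf x - 1 + 1) with he1
  have hbounds : ∀ᶠ x in l, ‖e1 x‖ ≤ K * (aa x)⁻¹ ∧
      ‖(θ x * (zf x - 1) - ζ x) / (zf x - 1 + 1) ^ 2‖ ≤ K * (aa x)⁻¹ ∧
      ‖(ζ x + θ x) * (zf x - 1) / (zf x - 1 + 1)‖ ≤ K * (aa x)⁻¹ ∧
      ‖θ x - (zf x - 1) * ζ x‖ ≤ K * (aa x)⁻¹ := by
    filter_upwards [hζb, hθb, hzn, hzb] with x g1 g2 g3 g4
    have h3 : 0 < (aa x)⁻¹ := inv_pos.mpr (haapos x)
    obtain ⟨-, -, g5⟩ := g3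
    have g6 : (1:ℝ) ≤ ‖zf x‖ := by have := (hb _ g4).1; linarith
    set B := K2 * (aa x)⁻¹ with hB
    have hB0 : 0 < B := by positivity
    have hKB : K * (aa x)⁻¹ = 2 * (Z + 1) * B := by rw [hK, hB]; ring
    rw [hKB]
    simp only [he1, sub_add_cancel]
    have s1 : ‖θ x + ζ x‖ ≤ 2 * B := (norm_add_le _ _).trans (by linarith)
    have s2 : ‖ζ x + θ x‖ ≤ 2 * B := (norm_add_le _ _).trans (by linarith)
    refine ⟨?_, ?_, ?_, ?_⟩
    · rw [norm_div]
      calc _ ≤ ‖θ x + ζ x‖ := div_le_self (norm_nonneg _) g6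
        _ ≤ 2 * B := s1
        _ ≤ _ := by nlinarith
    · rw [norm_div, norm_pow]
      calc _ ≤ ‖θ x * (zf x - 1) - ζ x‖ := div_le_self (norm_nonneg _) (one_le_pow₀ g6)
        _ ≤ ‖θ x‖ * ‖zf x - 1‖ + ‖ζ x‖ := by
            rw [← norm_mul]; exact norm_sub_le _ _
        _ ≤ B * Z + B := by gcongr
        _ ≤ _ := by nlinarith
    · rw [norm_div, norm_mul]
      calc _ ≤ ‖ζ x + θ x‖ * ‖zf x - 1‖ :=
            div_le_self (mul_nonneg (norm_nonneg _) (norm_nonneg _)) g6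
        _ ≤ (2 * B) * Z := by gcongr
        _ ≤ _ := by nlinarith
    · calc _ ≤ ‖θ x‖ + ‖zf x - 1‖ * ‖ζ x‖ := by
            rw [← norm_mul]; exact norm_sub_le _ _
        _ ≤ B + Z * B := by gcongr
        _ ≤ _ := by nlinarith
  set P : ℕ × ℂ → ℕ := fun x => ⌈aa x⌉₊ with hP
  have hPle : ∀ x, (P x : ℝ) ≤ 2 * aa x := by
    intro x
    have := Nat.ceil_lt_add_one (haapos x).le
    have h2 := haa1 x
    simp only [hP]; linarith
  have hPe : ∀ x, (P x : ℝ) * (K * (aa x)⁻¹) ≤ 2 * K := by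
    intro x
    have h3 : 0 < aa x := haapos x
    calc (P x : ℝ) * (K * (aa x)⁻¹) ≤ (2 * aa x) * (K * (aa x)⁻¹) := by
          gcongr
          exact hPle x
      _ = 2 * K := by field_simp
  obtain ⟨C, hC, ε0, hε0, hcd⟩ := cd_close (ρ⁻¹ ^ 2) (2 * K) (by positivity)
    (pow_lt_one₀ (by positivity) (inv_lt_one_of_one_lt₀ hρ) two_ne_zero) (by positivity)
  have hcl : ∀ᶠ x in l, ‖(cd (zf x - 1) (ζ x) (θ x) (P x)).1 - (1 + e1 x) ^ (P x)‖ ≤
      C * (K * (aa x)⁻¹) := by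
    have hsm : ∀ᶠ x in l, K * (aa x)⁻¹ ≤ ε0 := by
      have : Tendsto (fun x => K * (aa x)⁻¹) l (𝓝 0) := by simpa using haai.const_mul K
      filter_upwards [this.eventually (closedBall_mem_nhds (0:ℝ) hε0)] with x hx
      rw [dist_zero_right, Real.norm_eq_abs] at hx
      exact (le_abs_self _).trans hx
    filter_upwards [hsm, hbounds, hzb] with x g1 g2 g3
    have h3 : 0 < (aa x)⁻¹ := inv_pos.mpr (haapos x)
    apply hcd (zf x - 1) (ζ x) (θ x) (K * (aa x)⁻¹) (P x) (by positivity) g1 ?_ g2.1 g2.2.1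
      g2.2.2.1 g2.2.2.2 (hPe x)
    rw [norm_div, norm_one, norm_pow, inv_pow, one_div]
    have := (hb _ g3).2
    gcongr
  -- the main limit
  have hPa : Tendsto (fun x => ((P x : ℝ) : ℂ) / (aa x : ℂ)) l (𝓝 1) := by
    have h2 : Tendsto (fun x => (P x : ℝ) / aa x) l (𝓝 1) := (tendsto_nat_ceil_div_atTop (R := ℝ)).comp haainf
    have h3 := (Complex.continuous_ofReal.tendsto 1).comp h2
    rw [Complex.ofReal_one] at h3
    refine h3.congr (fun x => ?_)
    simp only [Function.comp_apply]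
    push_cast
    rfl
  have hG : Tendsto (fun x => (P x : ℂ) * σ x * Complex.exp x.2) l (𝓝 ((-2 / (z0 - 1)) * ω)) := by
    have g1 : Tendsto (fun x => (P x : ℂ) * x1 x * Complex.exp x.2) l (𝓝 0) := by
      refine tendsto_of_bound (g := fun x => 2 * Real.exp T * (aa x)⁻¹) ?_ (by
        simpa using haai.const_mul (2 * Real.exp T))
      filter_upwards [hx1, hτ] with x hx hx2
      rw [norm_mul, norm_mul, Complex.norm_natCast]
      have h3 := haapos x
      calc (P x : ℝ) * ‖x1 x‖ * ‖Complex.exp x.2‖ ≤ (2 * aa x) * ((aa x)⁻¹ ^ 2) * Real.exp T := by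
            gcongr
            · exact hPle x
            · exact hexpb' x hx2
        _ = _ := by field_simp
    have g2 : Tendsto (fun x => (P x : ℂ) * (y1 x - (-2 / (zf x - 1)) *
        ((-1 / z0) ^ (φ x.1 + 1) * Complex.exp (-x.2))) * Complex.exp x.2) l (𝓝 0) := by
      refine tendsto_of_bound (g := fun x => 2 * Real.exp T * (aa x)⁻¹) ?_ (by
        simpa using haai.const_mul (2 * Real.exp T))
      filter_upwards [hy1, hτ] with x hx hx2
      rw [norm_mul, norm_mul, Complex.norm_natCast]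
      have h3 := haapos x
      calc (P x : ℝ) * _ * ‖Complex.exp x.2‖ ≤ (2 * aa x) * ((aa x)⁻¹ ^ 2) * Real.exp T := by
            gcongr
            · exact hPle x
            · exact hexpb' x hx2
        _ = _ := by field_simp
    have g3 : Tendsto (fun x => ((P x : ℝ) : ℂ) / (aa x : ℂ) * om (φ x.1) * (-2 / (zf x - 1))) l
        (𝓝 (1 * ω * (-2 / (z0 - 1)))) := by
      refine (hPa.mul (hlim.comp tendsto_fst)).mul ?_
      exact tendsto_const_nhds.div (hz.sub_const 1) hz01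
    have g4 := (g1.add g2).add g3
    have g5 : (0:ℂ) + 0 + 1 * ω * (-2 / (z0 - 1)) = (-2 / (z0 - 1)) * ω := by ring
    rw [g5] at g4
    refine g4.congr (fun x => ?_)
    have h3 : (aa x : ℂ) ≠ 0 := by exact_mod_cast (haapos x).ne'
    have h4 : om (φ x.1) = (-1 / z0) ^ (φ x.1 + 1) * (aa x : ℂ) := rfl
    have h5 : Complex.exp (-x.2) * Complex.exp x.2 = 1 := by
      rw [← Complex.exp_add]; simp
    rw [h4]
    simp only [hσdef]
    rw [Complex.ofReal_natCast]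
    field_simp
    linear_combination (2 * (P x : ℂ) * (-1 / z0) ^ (φ x.1 + 1) / (zf x - 1)) * h5
  have hEl : Tendsto (fun x => (P x : ℂ) * e1 x * Complex.exp x.2) l (𝓝 E) := by
    have g1 : Tendsto (fun x => (zf x + 1) / ((1 - σ x) * zf x)) l
        (𝓝 ((z0 + 1) / ((1 - 0) * z0))) :=
      (hz.add_const 1).div ((hσ0.const_sub 1).mul hz) (by simpa using hz00)
    have g2 := g1.mul hG
    have g3 : (z0 + 1) / ((1 - 0) * z0) * ((-2 / (z0 - 1)) * ω) = E := by
      rw [hE]; ring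
    rw [g3] at g2
    refine g2.congr' ?_
    filter_upwards [hσh, hzb] with x g4 g5
    have g6 : 1 - σ x ≠ 0 := by
      intro h
      have := h1σ x g4
      rw [h, norm_zero] at this
      linarith
    have g7 : zf x ≠ 0 := by
      intro h
      have := (hb _ g5).1
      rw [h, norm_zero] at this
      linarith
    simp only [he1, hζ, hθ, sub_add_cancel]
    have g8 : σ x = x1 x + y1 x := rfl
    rw [g8] at g6 ⊢
    field_simp
    ring
  set W : ℕ × ℂ → ℂ := fun x => (P x : ℂ) * Complex.log (1 + e1 x) with hW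
  have he1h : ∀ᶠ x in l, ‖e1 x‖ ≤ 1 / 2 := by
    have : Tendsto (fun x => K * (aa x)⁻¹) l (𝓝 0) := by simpa using haai.const_mul K
    filter_upwards [this.eventually (closedBall_mem_nhds (0:ℝ) (show (0:ℝ) < 1/2 by norm_num)),
      hbounds] with x hx hx2
    rw [dist_zero_right, Real.norm_eq_abs] at hx
    exact hx2.1.trans ((le_abs_self _).trans hx)
  have hWl : Tendsto (fun x => W x * Complex.exp x.2) l (𝓝 E) := by
    have g1 : Tendsto (fun x => (P x : ℂ) * (Complex.log (1 + e1 x) - e1 x) * Complex.exp x.2) l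
        (𝓝 0) := by
      refine tendsto_of_bound (g := fun x => 2 * K * K * Real.exp T * (aa x)⁻¹) ?_ (by
        simpa using haai.const_mul (2 * K * K * Real.exp T))
      filter_upwards [he1h, hbounds, hτ] with x g2 g3 g4
      have g5 := Complex.norm_log_one_add_sub_self_le (z := e1 x) (by linarith)
      have g6 : ‖e1 x‖ ^ 2 * (1 - ‖e1 x‖)⁻¹ / 2 ≤ ‖e1 x‖ ^ 2 := by
        have g7 : (1 - ‖e1 x‖)⁻¹ ≤ 2 := by
          rw [inv_le_comm₀ (by linarith) (by norm_num)]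
          linarith
        have g8 : 0 ≤ ‖e1 x‖ ^ 2 := by positivity
        nlinarith
      have g9 : 0 < (aa x)⁻¹ := inv_pos.mpr (haapos x)
      rw [norm_mul, norm_mul, Complex.norm_natCast]
      calc (P x : ℝ) * ‖Complex.log (1 + e1 x) - e1 x‖ * ‖Complex.exp x.2‖
          ≤ (P x : ℝ) * ((K * (aa x)⁻¹) * (K * (aa x)⁻¹)) * Real.exp T := by
            gcongr
            · refine (g5.trans g6).trans ?_
              rw [pow_two]
              exact mul_le_mul g3.1 g3.1 (norm_nonneg _) (by positivity)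
            · exact hexpb' x g4
        _ = ((P x : ℝ) * (K * (aa x)⁻¹)) * (K * (aa x)⁻¹) * Real.exp T := by ring
        _ ≤ (2 * K) * (K * (aa x)⁻¹) * Real.exp T :=
            mul_le_mul_of_nonneg_right (mul_le_mul_of_nonneg_right (hPe x) (by positivity))
              (Real.exp_pos T).le
        _ = _ := by ring
    have g2 := g1.add hEl
    rw [zero_add] at g2
    refine g2.congr (fun x => ?_)
    simp only [hW]
    ring
  have hX : Tendsto (fun x => W x - E * Complex.exp (-x.2)) l (𝓝 0) := by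
    have g1 : Tendsto (fun x => ‖W x * Complex.exp x.2 - E‖ * Real.exp T) l (𝓝 0) := by
      have := (hWl.sub_const E).norm.mul_const (Real.exp T)
      simpa using this
    refine tendsto_of_bound ?_ g1
    filter_upwards [hτ] with x g2
    have g3 : W x - E * Complex.exp (-x.2) = (W x * Complex.exp x.2 - E) * Complex.exp (-x.2) := by
      have h5 : Complex.exp x.2 * Complex.exp (-x.2) = 1 := by
        rw [← Complex.exp_add]; simp
      linear_combination -(W x) * h5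
    rw [g3, norm_mul]
    gcongr
    exact hexpb x g2
  set M : ℝ := Real.exp (‖E‖ * Real.exp T) with hM
  have hMb : ∀ x : ℕ × ℂ, ‖x.2‖ ≤ T → ‖Complex.exp (E * Complex.exp (-x.2))‖ ≤ M := by
    intro x hx
    rw [Complex.norm_exp, hM]
    apply Real.exp_le_exp.mpr
    refine (Complex.re_le_norm _).trans ?_
    rw [norm_mul]
    gcongr
    exact hexpb x hx
  have hY : Tendsto (fun x => (1 + e1 x) ^ (P x) - Complex.exp (E * Complex.exp (-x.2))) l
      (𝓝 0) := by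
    have g0 : Tendsto (fun x => Complex.exp (W x - E * Complex.exp (-x.2)) - 1) l (𝓝 0) := by
      have := ((Complex.continuous_exp.tendsto 0).comp hX).sub_const 1
      rw [Complex.exp_zero, sub_self] at this
      exact this
    have g1 : Tendsto (fun x => M * ‖Complex.exp (W x - E * Complex.exp (-x.2)) - 1‖) l
        (𝓝 0) := by
      have := g0.norm.const_mul M
      simpa using this
    refine tendsto_of_bound ?_ g1
    filter_upwards [he1h, hτ] with x g2 g3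
    have g4 : (1 + e1 x) ^ (P x) = Complex.exp (W x) := by
      have g5 : 1 + e1 x ≠ 0 := by
        intro h
        have : e1 x = -1 := by linear_combination h
        rw [this, norm_neg, norm_one] at g2
        linarith
      simp only [hW]
      rw [Complex.exp_nat_mul, Complex.exp_log g5]
    have g6 : (1 + e1 x) ^ (P x) - Complex.exp (E * Complex.exp (-x.2)) =
        Complex.exp (E * Complex.exp (-x.2)) *
          (Complex.exp (W x - E * Complex.exp (-x.2)) - 1) := by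
      rw [g4, mul_sub, ← Complex.exp_add, mul_one]
      congr 2
      ring
    rw [g6, norm_mul]
    gcongr
    exact hMb x g3
  have hfin : Tendsto (fun x => (1 + zf x * (cd (zf x - 1) (ζ x) (θ x) (P x)).1) - F x.2) l
      (𝓝 0) := by
    have g1 : Tendsto (fun x => zf x * ((cd (zf x - 1) (ζ x) (θ x) (P x)).1 -
        (1 + e1 x) ^ (P x))) l (𝓝 0) := by
      have g2 : Tendsto (fun x => (cd (zf x - 1) (ζ x) (θ x) (P x)).1 -
        (1 + e1 x) ^ (P x)) l (𝓝 0) := by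
        refine tendsto_of_bound hcl ?_
        have := (haai.const_mul K).const_mul C
        simpa using this
      simpa using hz.mul g2
    have g3 : Tendsto (fun x => zf x * ((1 + e1 x) ^ (P x) -
        Complex.exp (E * Complex.exp (-x.2)))) l (𝓝 0) := by
      simpa using hz.mul hY
    have g4 : Tendsto (fun x => (zf x - z0) * Complex.exp (E * Complex.exp (-x.2))) l (𝓝 0) := by
      have g5 : Tendsto (fun x => ‖zf x - z0‖ * M) l (𝓝 0) := by
        have := (hz.sub_const z0).norm.mul_const M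
        simpa using this
      refine tendsto_of_bound ?_ g5
      filter_upwards [hτ] with x g6
      rw [norm_mul]
      gcongr
      exact hMb x g6
    have g5 := (g1.add g3).add g4
    rw [add_zero, add_zero] at g5
    refine g5.congr (fun x => ?_)
    simp only [hF]
    ring
  -- choose an index
  have hev1 : ∀ᶠ x in l, ‖(1 + zf x * (cd (zf x - 1) (ζ x) (θ x) (P x)).1) - F x.2‖ < δ / 2 := by
    have := hfin.eventually (ball_mem_nhds (0:ℂ) (half_pos hδ))
    filter_upwards [this] with x hx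
    rwa [dist_zero_right] at hx
  have hev2 : ∀ᶠ x in l, 2 ≤ aa x := haainf.eventually (eventually_ge_atTop 2)
  have hev := hev1.and (hev2.and (hzb.and hσh))
  rw [hl, eventually_prod_principal_iff] at hev
  obtain ⟨n, hn⟩ := hev.exists
  -- the function of `τ`
  have hdiff : ∀ τ ∈ closedBall τs r, DifferentiableAt ℂ
      (fun τ => 1 + zf (n, τ) * (cd (zf (n, τ) - 1) (ζ (n, τ)) (θ (n, τ)) (P (n, τ))).1) τ := by
    intro τ hτ'
    obtain ⟨-, -, g1, g2⟩ := hn τ hτ'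
    have g3 : zf (n, τ) ≠ 0 := by
      intro h
      have := (hb _ g1).1
      rw [h, norm_zero] at this
      linarith
    have g4 : zf (n, τ) - 1 ≠ 0 := by
      intro h
      have := (hb _ g1).2
      rw [h, norm_zero] at this
      linarith
    have g5 : 1 - σ (n, τ) ≠ 0 := by
      intro h
      have := h1σ _ g2
      rw [h, norm_zero] at this
      linarith
    obtain ⟨p1, p2⟩ := Phi_diff (m (φ n)) (φ n + 1) (zf (n, τ)) g3 g4
    have p3 : DifferentiableAt ℂ (fun z : ℂ => z + 1) (zf (n, τ)) := by fun_prop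
    have p4 : DifferentiableAt ℂ (fun z : ℂ => z) (zf (n, τ)) := by fun_prop
    have p5 := (differentiableAt_const (1:ℂ)).sub (p1.add p2)
    have p6 := (p3.mul p1).div p5 g5
    have p7 := (p3.mul p2).div p5 g5
    have p8 := (cd_diff _ _ (zf (n, τ)) g3 g4 p6 p7 (P (n, τ))).1
    have p9 := (differentiableAt_const (1:ℂ)).add (p4.mul p8)
    have p10 : DifferentiableAt ℂ (fun τ => zf (n, τ)) τ := by
      simp only [hzf]
      fun_prop
    have p11 := DifferentiableAt.comp τ p9 p10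
    exact p11
  obtain ⟨τ, hτ', hτ0⟩ := exists_zero _ τs r (δ / 2) hr hdiff
    (by
      have := (hn τs (mem_closedBall_self hr.le)).1
      simp only at this
      rw [hFτ, sub_zero] at this
      exact this)
    (by
      intro τ hτ'
      have g1 := (hn τ (sphere_subset_closedBall hτ')).1
      have g2 := hδF τ hτ'
      simp only at g1
      have g3 : ‖F τ‖ ≤ ‖1 + zf (n, τ) * (cd (zf (n, τ) - 1) (ζ (n, τ)) (θ (n, τ))
          (P (n, τ))).1‖ + ‖(1 + zf (n, τ) * (cd (zf (n, τ) - 1) (ζ (n, τ)) (θ (n, τ))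
          (P (n, τ))).1) - F τ‖ := by
        calc ‖F τ‖ = ‖(1 + zf (n, τ) * (cd (zf (n, τ) - 1) (ζ (n, τ)) (θ (n, τ))
          (P (n, τ))).1) - ((1 + zf (n, τ) * (cd (zf (n, τ) - 1) (ζ (n, τ)) (θ (n, τ))
          (P (n, τ))).1) - F τ)‖ := by congr 1; ring
          _ ≤ _ := norm_sub_le _ _
      linarith)
  obtain ⟨-, g0, g1, g2⟩ := hn τ hτ'
  set z := zf (n, τ) with hzdef
  have g3 : z ≠ 0 := by
    intro h
    have := (hb _ g1).1
    rw [h, norm_zero] at this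
    linarith
  have g4 : z - 1 ≠ 0 := by
    intro h
    have := (hb _ g1).2
    rw [h, norm_zero] at this
    linarith
  have g5 : 1 - σ (n, τ) ≠ 0 := by
    intro h
    have := h1σ _ g2
    rw [h, norm_zero] at this
    linarith
  have g6 : z + 1 ≠ 0 := by
    intro h
    have h2 := (hb _ g1).1
    have : z = -1 := by linear_combination h
    rw [this, norm_neg, norm_one] at h2
    linarith
  have hP2 : 2 ≤ P (n, τ) := by
    simp only [hP]
    have h2 : (2:ℝ) ≤ (⌈aa (n, τ)⌉₊ : ℝ) := g0.trans (Nat.le_ceil _)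
    exact_mod_cast h2
  refine ⟨m (φ n), φ n + 1, P (n, τ) - 1, z + 1, hm0 _, Nat.succ_pos _, by omega, ?_, ?_⟩
  · rw [mem_closedBall, dist_eq_norm] at g1
    have : z + 1 - (z0 + 1) = z - z0 := by ring
    rw [this]
    linarith
  · have e2 : z + 1 - 1 = z := by ring
    have e3 : z + 1 - 2 = z - 1 := by ring
    obtain ⟨d1, d2⟩ := D_wd (z + 1) (m (φ n)) (φ n + 1) (by rw [e2]; exact g3)
      (by rw [e3]; exact g4)
    have d3 := D_inv (z + 1) (wd (m (φ n)) (φ n + 1))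
    rw [d1, d2, e3] at d3
    rw [e3] at d1 d2
    have s1 : (Phi (z - 1) ((-1 / (z - 1)) ^ m (φ n)) (φ n + 1)).1 = x1 (n, τ) := rfl
    have s2 : (Phi (z - 1) ((-1 / (z - 1)) ^ m (φ n)) (φ n + 1)).2 = y1 (n, τ) := rfl
    rw [s1, s2] at d3
    rw [s1] at d1
    rw [s2] at d2
    set U := (z - 1) ^ ((wd (m (φ n)) (φ n + 1)).length + 1) with hU
    have hU0 : U ≠ 0 := pow_ne_zero _ g4
    have d4 : (D (z + 1) (wd (m (φ n)) (φ n + 1))).1 = U * (1 - σ (n, τ)) / (z + 1) := by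
      rw [eq_div_iff g6]
      simp only [hσdef]
      linear_combination d3
    have d5 : (D (z + 1) (wd (m (φ n)) (φ n + 1))).1 ≠ 0 := by
      rw [d4]
      exact div_ne_zero (mul_ne_zero hU0 g5) g6
    have d6 : (D (z + 1) (wd (m (φ n)) (φ n + 1))).2.1 /
        (D (z + 1) (wd (m (φ n)) (φ n + 1))).1 = ζ (n, τ) := by
      rw [d4, d1]
      simp only [hζ]
      rw [← hzdef]
      field_simp
    have d7 : (D (z + 1) (wd (m (φ n)) (φ n + 1))).2.2 /
        (D (z + 1) (wd (m (φ n)) (φ n + 1))).1 = θ (n, τ) := by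
      rw [d4, d2]
      simp only [hθ]
      rw [← hzdef]
      field_simp
    rw [Ptot_eq (z + 1) _ _ d5 (by rw [e2]; exact g3) (by rw [e3]; exact g4), d6, d7, e2, e3]
    have e4 : P (n, τ) - 1 + 1 = P (n, τ) := by omega
    rw [e4, hτ0, mul_zero]

end Pool.Agent.Ch3
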