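import Mathlib

/-!
# Chromatic roots of 3-connected planar graphs: definitions
-/

namespace Pool.Agent.Ch3

/-- A finite graph is 3-connected: it has at least four vertices, and it stays connected after
deleting any set of at most two vertices. -/
def ThreeConn {V : Type} [Fintype V] (G : SimpleGraph V) : Prop :=
  4 ≤ Fintype.card V ∧ ∀ S : Finset V, S.card ≤ 2 → (G.induce ((↑S : Set V)ᶜ)).Connected

/-- A graph is planar: its vertices can be placed at distinct points of the plane and its edges
drawn as arcs which meet vertices only at their ends and meet each other only at vertices. -/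
def PlanarG {V : Type} (G : SimpleGraph V) : Prop :=
  ∃ (f : V → ℂ) (γ : ∀ u v : V, Path (f u) (f v)),
    Function.Injective f ∧
    (∀ u v : V, G.Adj u v → Function.Injective ⇑(γ u v) ∧
      ∀ (t : unitInterval) (w : V), γ u v t = f w → w = u ∨ w = v) ∧
    (∀ u v x y : V, G.Adj u v → G.Adj x y → s(u, v) ≠ s(x, y) →
      ∀ a b : unitInterval, γ u v a = γ x y b → ∃ w : V, γ u v a = f w)

/-- `P` is the chromatic polynomial of `G`: for every natural number `k`, `P k` is the number of
proper colourings of `G` with `k` colours. -/
def IsChromaticPoly {V : Type} (G : SimpleGraph V) (P : Polynomial ℂ) : Prop :=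
  ∀ k : ℕ, P.eval (k : ℂ) = (Nat.card (G.Coloring (Fin k)) : ℂ)

/-- The set of chromatic roots of finite 3-connected planar graphs. -/
def rootSet : Set ℂ :=
  {q : ℂ | ∃ (n : ℕ) (G : SimpleGraph (Fin n)), ThreeConn G ∧ PlanarG G ∧
    ∃ P : Polynomial ℂ, IsChromaticPoly G P ∧ P.eval q = 0}

end Pool.Agent.Ch3
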