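import Pool.Agent.Ch3.Defs
import Pool.Agent.Ch3.Stmt

/-!
# 3-connectivity of the strips graph
-/

namespace Pool.Agent.Ch3

section RS

variable {V : Type} (G : SimpleGraph V) (S : Finset V)

/-- reachability avoiding `S` -/
def RS (x y : V) : Prop :=
  ∃ (hx : x ∈ (↑S : Set V)ᶜ) (hy : y ∈ (↑S : Set V)ᶜ),
    (G.induce ((↑S : Set V)ᶜ)).Reachable ⟨x, hx⟩ ⟨y, hy⟩

variable {G S}

lemma RS.refl {x : V} (hx : x ∉ S) : RS G S x x :=
  ⟨by simpa using hx, by simpa using hx, SimpleGraph.Reachable.refl _⟩

lemma RS.symm {x y : V} (h : RS G S x y) : RS G S y x := by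
  obtain ⟨hx, hy, h⟩ := h
  exact ⟨hy, hx, h.symm⟩

lemma RS.trans {x y z : V} (h : RS G S x y) (h' : RS G S y z) : RS G S x z := by
  obtain ⟨hx, hy, h⟩ := h
  obtain ⟨hy', hz, h'⟩ := h'
  exact ⟨hx, hz, h.trans h'⟩

lemma RS.of_adj {x y : V} (hx : x ∉ S) (hy : y ∉ S) (h : G.Adj x y) : RS G S x y := by
  refine ⟨by simpa using hx, by simpa using hy, SimpleGraph.Adj.reachable ?_⟩
  simpa using h

lemma connected_of_RS (c : V) (hc : c ∉ S) (h : ∀ v, v ∉ S → RS G S v c) :
    (G.induce ((↑S : Set V)ᶜ)).Connected := by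
  have : Nonempty ((↑S : Set V)ᶜ : Set V) := ⟨⟨c, by simpa using hc⟩⟩
  refine SimpleGraph.Connected.mk ?_
  rintro ⟨x, hx⟩ ⟨y, hy⟩
  obtain ⟨_, _, h1⟩ := h x (by simpa using hx)
  obtain ⟨_, _, h2⟩ := h y (by simpa using hy)
  exact h1.trans h2.symm

lemma rail_reach {n : ℕ} (v : Fin (n + 1) → V)
    (hv : ∀ l l' : Fin (n + 1), l.val + 1 = l'.val → G.Adj (v l) (v l')) :
    ∀ (k : ℕ) (l l' : Fin (n + 1)), l'.val = l.val + k →
      (∀ t : Fin (n + 1), l.val ≤ t.val → t.val ≤ l'.val → v t ∉ S) → RS G S (v l) (v l') := by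
  intro k
  induction k with
  | zero =>
    intro l l' h hS
    have : l' = l := Fin.ext (by omega)
    subst this
    exact RS.refl (hS _ le_rfl le_rfl)
  | succ k ih =>
    intro l l' h hS
    have hm : l.val + k < n + 1 := by omega
    have h1 := ih l ⟨l.val + k, hm⟩ rfl (fun t h1 h2 => hS t h1 (by simp only at h2; omega))
    refine h1.trans (RS.of_adj ?_ ?_ ?_)
    · exact hS _ (by simp) (by simp only; omega)
    · exact hS _ (by omega) le_rfl
    · exact hv _ _ (by simp only; omega)

lemma eq_or_eq [DecidableEq V] (hS : S.card ≤ 2) {x y z : V} (hx : x ∈ S) (hy : y ∈ S)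
    (hz : z ∈ S) (hxy : x ≠ y) : z = x ∨ z = y := by
  by_contra hcon
  push Not at hcon
  have h1 : ({x, y, z} : Finset V) ⊆ S := by
    intro a ha
    simp only [Finset.mem_insert, Finset.mem_singleton] at ha
    rcases ha with rfl | rfl | rfl <;> assumption
  have h2 : ({x, y, z} : Finset V).card = 3 := by
    rw [Finset.card_eq_three]
    exact ⟨x, y, z, hxy, hcon.1.symm, hcon.2.symm, rfl⟩
  have := Finset.card_le_card h1
  omega

end RS

/-- length of a rail -/
def nn (w : List Bool) (s : Bool) : ℕ := if s then nb w else na w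

/-- rails -/
def rail (w : List Bool) (p : ℕ) (i : Fin p) : (s : Bool) → Fin (nn w s + 1) → V w p
  | false => fun l => .inr (i, .inl l)
  | true => fun l => .inr (i, .inr l)

variable {w : List Bool} {p : ℕ}

lemma rail_adj (i : Fin p) (s : Bool) (l l' : Fin (nn w s + 1)) (h : l.val + 1 = l'.val) :
    (G w p).Adj (rail w p i s l) (rail w p i s l') := by
  rw [G_adj]
  cases s
  · exact Or.inl ⟨rfl, h⟩
  · exact Or.inl ⟨rfl, h⟩

lemma rail_top (i : Fin p) (s : Bool) :
    (G w p).Adj (.inl false) (rail w p i s 0) := by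
  rw [G_adj]
  cases s
  · exact Or.inl rfl
  · exact Or.inl rfl

lemma rail_bot (i : Fin p) (s : Bool) :
    (G w p).Adj (.inl true) (rail w p i s (Fin.last _)) := by
  rw [G_adj]
  cases s
  · exact Or.inl rfl
  · exact Or.inl rfl

lemma rail_cross (i : Fin p) (s : Bool) (l : Fin (nn w s + 1)) :
    ∃ l' : Fin (nn w (!s) + 1), (G w p).Adj (rail w p i s l) (rail w p i (!s) l') := by
  cases s
  · obtain ⟨j, hj, h⟩ := K_left w l.val (Nat.lt_succ_iff.mp l.2)
    refine ⟨⟨j, Nat.lt_succ_iff.mpr hj⟩, ?_⟩
    rw [G_adj]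
    exact Or.inl ⟨rfl, h⟩
  · obtain ⟨j, hj, h⟩ := K_right w l.val (Nat.lt_succ_iff.mp l.2)
    refine ⟨⟨j, Nat.lt_succ_iff.mpr hj⟩, ?_⟩
    rw [G_adj]
    exact Or.inr ⟨rfl, h⟩

lemma rail_tops (i : Fin p) : (G w p).Adj (rail w p i false 0) (rail w p i true 0) := by
  rw [G_adj]
  exact Or.inl ⟨rfl, K_zero w⟩

lemma rail_link (i j : Fin p) (h : i.val + 1 = j.val) :
    (G w p).Adj (rail w p i true 0) (rail w p j false 0) := by
  rw [G_adj]
  exact Or.inl ⟨h, rfl, rfl⟩

lemma rail_ne_inl (i : Fin p) (s : Bool) (l : Fin (nn w s + 1)) (b : Bool) :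
    rail w p i s l ≠ .inl b := by
  cases s <;> simp [rail]

lemma rail_inj (i j : Fin p) (s t : Bool) (l : Fin (nn w s + 1)) (m : Fin (nn w t + 1))
    (h : rail w p i s l = rail w p j t m) : i = j ∧ s = t ∧ l.val = m.val := by
  cases s <;> cases t <;> simp [rail] at h ⊢
  · exact ⟨h.1, congrArg Fin.val h.2⟩
  · exact ⟨h.1, congrArg Fin.val h.2⟩

lemma vertex_cases (v : V w p) : v = .inl false ∨ v = .inl true ∨
    ∃ i s l, v = rail w p i s l := by
  rcases v with b | ⟨i, l | r⟩
  · cases b
    · exact Or.inl rfl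
    · exact Or.inr (Or.inl rfl)
  · exact Or.inr (Or.inr ⟨i, false, l, rfl⟩)
  · exact Or.inr (Or.inr ⟨i, true, r, rfl⟩)

section main

variable {S : Finset (V w p)}

lemma up (i : Fin p) (s : Bool) (l : Fin (nn w s + 1))
    (h : ∀ t : Fin (nn w s + 1), t.val ≤ l.val → rail w p i s t ∉ S) :
    RS (G w p) S (rail w p i s l) (rail w p i s 0) := by
  apply RS.symm
  apply rail_reach (rail w p i s) (rail_adj i s) l.val 0 l (by simp)
  intro t _ ht
  exact h t ht

lemma down (i : Fin p) (s : Bool) (l : Fin (nn w s + 1))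
    (h : ∀ t : Fin (nn w s + 1), l.val ≤ t.val → rail w p i s t ∉ S) :
    RS (G w p) S (rail w p i s l) (rail w p i s (Fin.last _)) := by
  apply rail_reach (rail w p i s) (rail_adj i s) (nn w s - l.val) l (Fin.last _)
  · have := l.2
    simp only [Fin.val_last]; omega
  intro t ht _
  exact h t ht

lemma up_hub (hT : (.inl false : V w p) ∉ S) (i : Fin p) (s : Bool) (l : Fin (nn w s + 1))
    (h : ∀ t : Fin (nn w s + 1), t.val ≤ l.val → rail w p i s t ∉ S) :
    RS (G w p) S (rail w p i s l) (.inl false) :=
  (up i s l h).trans (RS.of_adj (h 0 (by simp)) hT (rail_top i s).symm)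

lemma down_hub (hD : (.inl true : V w p) ∉ S) (i : Fin p) (s : Bool) (l : Fin (nn w s + 1))
    (h : ∀ t : Fin (nn w s + 1), l.val ≤ t.val → rail w p i s t ∉ S) :
    RS (G w p) S (rail w p i s l) (.inl true) := by
  refine (down i s l h).trans (RS.of_adj (h _ ?_) hD (rail_bot i s).symm)
  have := l.2
  simp only [Fin.val_last]; omega

/-- with both hubs present, they are connected -/
lemma hubs (hp : 2 ≤ p) (hS : S.card ≤ 2) (hT : (.inl false : V w p) ∉ S)
    (hD : (.inl true : V w p) ∉ S) : RS (G w p) S (.inl false) (.inl true) := by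
  classical
  by_cases h : ∃ (i : Fin p) (s : Bool), ∀ t, rail w p i s t ∉ S
  · obtain ⟨i, s, h⟩ := h
    exact ((up_hub hT i s 0 (fun t _ => h t)).symm).trans (down_hub hD i s 0 (fun t _ => h t))
  · exfalso
    push Not at h
    obtain ⟨t1, h1⟩ := h ⟨0, by omega⟩ false
    obtain ⟨t2, h2⟩ := h ⟨0, by omega⟩ true
    obtain ⟨t3, h3⟩ := h ⟨1, by omega⟩ true
    rcases eq_or_eq hS h1 h2 h3 (fun e => by have := rail_inj _ _ _ _ _ _ e; simp at this) with
      e | e
    · have := rail_inj _ _ _ _ _ _ e
      simp at this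
    · have := rail_inj _ _ _ _ _ _ e
      simp at this

theorem threeConn (hp : 2 ≤ p) : ThreeConn (G w p) := by
  classical
  refine ⟨?_, ?_⟩
  · simp only [V, Strip, Fintype.card_sum, Fintype.card_prod, Fintype.card_bool, Fintype.card_fin]
    have : 2 * 2 ≤ p * (na w + 1 + (nb w + 1)) := Nat.mul_le_mul hp (by omega)
    omega
  intro S hS
  by_cases hT : (.inl false : V w p) ∈ S
  · by_cases hD : (.inl true : V w p) ∈ S
    · -- both hubs deleted
      have hfree : ∀ (i : Fin p) (s : Bool) (l : Fin (nn w s + 1)), rail w p i s l ∉ S := by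
        intro i s l h
        rcases eq_or_eq hS hT hD h (by simp) with e | e
        · exact rail_ne_inl _ _ _ _ e
        · exact rail_ne_inl _ _ _ _ e
      refine connected_of_RS (rail w p ⟨0, by omega⟩ false 0) (hfree _ _ _) ?_
      have hrow : ∀ (k : ℕ) (hk : k < p),
          RS (G w p) S (rail w p ⟨k, hk⟩ false 0) (rail w p ⟨0, by omega⟩ false 0) := by
        intro k
        induction k with
        | zero => intro hk; exact RS.refl (hfree _ _ _)
        | succ k ih =>
          intro hk
          refine RS.trans ?_ (ih (by omega))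
          refine RS.trans ?_ (RS.of_adj (hfree _ _ _) (hfree _ _ _)
            (rail_tops ⟨k, by omega⟩).symm)
          exact RS.of_adj (hfree _ _ _) (hfree _ _ _)
            (rail_link ⟨k, by omega⟩ ⟨k + 1, hk⟩ rfl).symm
      intro v hv
      rcases vertex_cases v with rfl | rfl | ⟨i, s, l, rfl⟩
      · exact absurd hT hv
      · exact absurd hD hv
      · refine (up i s l (fun t _ => hfree i s t)).trans ?_
        cases s
        · exact hrow i.val i.2
        · exact (RS.of_adj (hfree _ _ _) (hfree _ _ _) (rail_tops i).symm).trans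
            (hrow i.val i.2)
    · -- top hub deleted
      refine connected_of_RS (.inl true) hD ?_
      intro v hv
      rcases vertex_cases v with rfl | rfl | ⟨i, s, l, rfl⟩
      · exact absurd hT hv
      · exact RS.refl hD
      · by_cases h : ∀ t : Fin (nn w s + 1), l.val ≤ t.val → rail w p i s t ∉ S
        · exact down_hub hD i s l h
        · push Not at h
          obtain ⟨t, ht, hts⟩ := h
          have hfree : ∀ m : Fin (nn w (!s) + 1), rail w p i (!s) m ∉ S := by
            intro m hm
            rcases eq_or_eq hS hT hts hm (fun e => rail_ne_inl _ _ _ _ e.symm) with e | e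
            · exact rail_ne_inl _ _ _ _ e
            · have := (rail_inj _ _ _ _ _ _ e).2.1
              simp at this
          obtain ⟨l', hl'⟩ := rail_cross i s l
          exact (RS.of_adj hv (hfree _) hl').trans (down_hub hD i (!s) l' (fun t _ => hfree t))
  · by_cases hD : (.inl true : V w p) ∈ S
    · refine connected_of_RS (.inl false) hT ?_
      intro v hv
      rcases vertex_cases v with rfl | rfl | ⟨i, s, l, rfl⟩
      · exact RS.refl hT
      · exact absurd hD hv
      · by_cases h : ∀ t : Fin (nn w s + 1), t.val ≤ l.val → rail w p i s t ∉ S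
        · exact up_hub hT i s l h
        · push Not at h
          obtain ⟨t, ht, hts⟩ := h
          have hfree : ∀ m : Fin (nn w (!s) + 1), rail w p i (!s) m ∉ S := by
            intro m hm
            rcases eq_or_eq hS hD hts hm (fun e => rail_ne_inl _ _ _ _ e.symm) with e | e
            · exact rail_ne_inl _ _ _ _ e
            · have := (rail_inj _ _ _ _ _ _ e).2.1
              simp at this
          obtain ⟨l', hl'⟩ := rail_cross i s l
          exact (RS.of_adj hv (hfree _) hl').trans (up_hub hT i (!s) l' (fun t _ => hfree t))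
    · refine connected_of_RS (.inl false) hT ?_
      intro v hv
      rcases vertex_cases v with rfl | rfl | ⟨i, s, l, rfl⟩
      · exact RS.refl hT
      · exact (hubs hp hS hT hD).symm
      · by_cases h : ∀ t : Fin (nn w s + 1), t.val ≤ l.val → rail w p i s t ∉ S
        · exact up_hub hT i s l h
        · by_cases h' : ∀ t : Fin (nn w s + 1), l.val ≤ t.val → rail w p i s t ∉ S
          · exact (down_hub hD i s l h').trans (hubs hp hS hT hD).symm
          · push Not at h h'
            obtain ⟨t, ht, hts⟩ := h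
            obtain ⟨t', ht', hts'⟩ := h'
            have hne : t.val ≠ l.val := by
              intro e
              have : t = l := Fin.ext e
              subst this
              exact hv hts
            have hfree : ∀ m : Fin (nn w (!s) + 1), rail w p i (!s) m ∉ S := by
              intro m hm
              rcases eq_or_eq hS hts hts' hm (fun e => by
                have := (rail_inj _ _ _ _ _ _ e).2.2
                omega) with e | e
              · have := (rail_inj _ _ _ _ _ _ e).2.1
                simp at this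
              · have := (rail_inj _ _ _ _ _ _ e).2.1
                simp at this
            obtain ⟨l', hl'⟩ := rail_cross i s l
            exact (RS.of_adj hv (hfree _) hl').trans (up_hub hT i (!s) l' (fun t _ => hfree t))

end main

end Pool.Agent.Ch3
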