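import Pool.Agent.Ch3.Defs

/-!
# Counting colourings of the strips graph
-/

namespace Pool.Agent.Ch3

open Finset Classical

variable {α : Type} [Fintype α]

lemma sum_fin_succ {n : ℕ} (F : (Fin (n + 1) → α) → ℂ) :
    ∑ x, F x = ∑ x0, ∑ t : Fin n → α, F (Fin.cons x0 t) := by
  rw [← (Fin.consEquiv (fun _ => α)).sum_comp, Fintype.sum_prod_type]
  rfl

/-- proper colourings of a strip -/
def PR (n m : ℕ) (k : ℕ → ℕ → Prop) (x : Fin (n + 1) → α) (y : Fin (m + 1) → α) : Prop :=
  (∀ l l' : Fin (n + 1), l.val + 1 = l'.val → x l ≠ x l') ∧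
  (∀ r r' : Fin (m + 1), r.val + 1 = r'.val → y r ≠ y r') ∧
  ∀ (l : Fin (n + 1)) (r : Fin (m + 1)), k l.val r.val → x l ≠ y r

omit [Fintype α] in
lemma rail_cons (n : ℕ) (x0 : α) (t : Fin (n + 1) → α) :
    (∀ l l' : Fin (n + 1 + 1), l.val + 1 = l'.val →
      (Fin.cons x0 t : Fin (n + 1 + 1) → α) l ≠ (Fin.cons x0 t : Fin (n + 1 + 1) → α) l') ↔
    x0 ≠ t 0 ∧ ∀ l l' : Fin (n + 1), l.val + 1 = l'.val → t l ≠ t l' := by
  constructor
  · intro h
    refine ⟨h 0 (Fin.succ 0) rfl, ?_⟩
    intro l l' hl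
    exact h l.succ l'.succ (by simp only [Fin.val_succ]; omega)
  · rintro ⟨h1, h2⟩ l l'
    refine Fin.cases ?_ (fun l => ?_) l
    · refine Fin.cases ?_ (fun l' => ?_) l'
      · intro h; simp at h
      · intro h
        have : l' = 0 := by
          apply Fin.ext
          simp only [Fin.val_succ, Fin.val_zero] at h ⊢
          omega
        subst this
        exact h1
    · refine Fin.cases ?_ (fun l' => ?_) l'
      · intro h; simp at h
      · intro h
        exact h2 l l' (by simp only [Fin.val_succ] at h; omega)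

omit [Fintype α] in
lemma PR_false (w : List Bool) (n m : ℕ) (x0 : α) (t : Fin (n + 1) → α) (y : Fin (m + 1) → α) :
    PR (n + 1) m (K (false :: w)) (Fin.cons x0 t : Fin (n + 1 + 1) → α) y ↔
      x0 ≠ t 0 ∧ x0 ≠ y 0 ∧ PR n m (K w) t y := by
  rw [PR, rail_cons]
  constructor
  · rintro ⟨⟨h1, h4⟩, h2, h3⟩
    refine ⟨h1, ?_, h4, h2, ?_⟩
    · exact h3 0 0 (Or.inl ⟨rfl, rfl⟩)
    · intro l r h
      exact h3 l.succ r (Or.inr ⟨l, rfl, h⟩)
  · rintro ⟨h1, h2, h3, h4, h5⟩
    refine ⟨⟨h1, h3⟩, h4, ?_⟩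
    · intro l r
      refine Fin.cases ?_ (fun l => ?_) l
      · rintro (⟨-, h⟩ | ⟨i', h, -⟩)
        · have : r = 0 := Fin.ext h
          subst this
          exact h2
        · simp at h
      · rintro (⟨h, -⟩ | ⟨i', h, h'⟩)
        · simp at h
        · have : l.val = i' := by simpa using h
          subst this
          exact h5 l r h'

omit [Fintype α] in
lemma PR_true (w : List Bool) (n m : ℕ) (y0 : α) (x : Fin (n + 1) → α) (t : Fin (m + 1) → α) :
    PR n (m + 1) (K (true :: w)) x (Fin.cons y0 t : Fin (m + 1 + 1) → α) ↔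
      y0 ≠ t 0 ∧ x 0 ≠ y0 ∧ PR n m (K w) x t := by
  rw [PR, rail_cons]
  constructor
  · rintro ⟨h4, ⟨h1, h2⟩, h3⟩
    refine ⟨h1, ?_, h4, h2, ?_⟩
    · exact h3 0 0 (Or.inl ⟨rfl, rfl⟩)
    · intro l r h
      exact h3 l r.succ (Or.inr ⟨r, rfl, h⟩)
  · rintro ⟨h1, h2, h3, h4, h5⟩
    refine ⟨h3, ⟨h1, h4⟩, ?_⟩
    · intro l r
      refine Fin.cases ?_ (fun r => ?_) r
      · rintro (⟨h, -⟩ | ⟨i', h, -⟩)
        · have : l = 0 := Fin.ext h
          subst this
          exact h2
        · simp at h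
      · rintro (⟨-, h⟩ | ⟨i', h, h'⟩)
        · simp at h
        · have : r.val = i' := by simpa using h
          subst this
          exact h5 l r h'

/-- number of proper colourings of a strip with top colours `x0`, `y0` whose bottom colours
avoid `β` -/
noncomputable def Nst (n m : ℕ) (k : ℕ → ℕ → Prop) (β x0 y0 : α) : ℂ :=
  ∑ x : Fin (n + 1) → α, ∑ y : Fin (m + 1) → α,
    if PR n m k x y ∧ x (Fin.last _) ≠ β ∧ y (Fin.last _) ≠ β ∧ x 0 = x0 ∧ y 0 = y0 then 1 else 0

lemma sum_one (c : α) (a : ℂ) : ∑ x : Fin (0 + 1) → α, (if x 0 = c then a else 0) = a := by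
  rw [sum_fin_succ]
  simp

lemma Nst_nil (β x0 y0 : α) : Nst 0 0 (K []) β x0 y0 =
    if x0 = y0 then 0 else 1 + (-1) * (if x0 = β then 1 else 0) +
      (-1) * (if y0 = β then 1 else 0) := by
  rw [Nst]
  have h : ∀ (x y : Fin (0 + 1) → α), (if PR 0 0 (K []) x y ∧ x (Fin.last _) ≠ β ∧
      y (Fin.last _) ≠ β ∧ x 0 = x0 ∧ y 0 = y0 then (1 : ℂ) else 0) =
      if x 0 = x0 then (if y 0 = y0 then (if x0 ≠ y0 ∧ x0 ≠ β ∧ y0 ≠ β then 1 else 0) else 0)
        else 0 := by
    intro x y
    by_cases h1 : x 0 = x0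
    · by_cases h2 : y 0 = y0
      · rw [if_pos h1, if_pos h2]
        congr 1
        subst h1 h2
        have e1 : x (Fin.last 0) = x 0 := rfl
        have e2 : y (Fin.last 0) = y 0 := rfl
        rw [e1, e2]
        simp only [and_true, eq_iff_iff]
        constructor
        · rintro ⟨⟨-, -, h⟩, h1, h2⟩
          exact ⟨h 0 0 ⟨rfl, rfl⟩, h1, h2⟩
        · rintro ⟨h, h1, h2⟩
          refine ⟨⟨?_, ?_, ?_⟩, h1, h2⟩
          · intro l l' h; omega
          · intro l l' h; omega
          · intro l r _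
            have : l = 0 := Fin.ext (by omega)
            have : r = 0 := Fin.ext (by omega)
            subst l r
            exact h
      · rw [if_pos h1, if_neg h2, if_neg]
        tauto
    · rw [if_neg h1, if_neg]
      tauto
  calc _ = ∑ x : Fin (0 + 1) → α, ∑ y : Fin (0 + 1) → α,
        (if x 0 = x0 then (if y 0 = y0 then (if x0 ≠ y0 ∧ x0 ≠ β ∧ y0 ≠ β then (1:ℂ) else 0)
        else 0) else 0) := by
        apply Finset.sum_congr rfl; intro x _
        apply Finset.sum_congr rfl; intro y _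
        exact h x y
    _ = ∑ x : Fin (0 + 1) → α, (if x 0 = x0 then (if x0 ≠ y0 ∧ x0 ≠ β ∧ y0 ≠ β then (1:ℂ) else 0)
        else 0) := by
        apply Finset.sum_congr rfl; intro x _
        by_cases h1 : x 0 = x0
        · simp only [h1, if_true]
          exact sum_one _ _
        · simp only [h1, if_false, Finset.sum_const_zero]
    _ = _ := by
        rw [sum_one]
        by_cases h1 : x0 = y0 <;> by_cases h2 : x0 = β <;> by_cases h3 : y0 = β <;>
          simp_all

lemma Nst_false (w : List Bool) (n m : ℕ) (β x0 y0 : α) : Nst (n + 1) m (K (false :: w)) β x0 y0 =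
    if x0 = y0 then 0 else ∑ x1, if x1 = x0 then 0 else Nst n m (K w) β x1 y0 := by
  rw [Nst, sum_fin_succ, Finset.sum_comm]
  have key : ∀ (t : Fin (n + 1) → α) (y : Fin (m + 1) → α), (∑ z : α,
      if PR (n + 1) m (K (false :: w)) (Fin.cons z t : Fin (n + 1 + 1) → α) y ∧
        (Fin.cons z t : Fin (n + 1 + 1) → α) (Fin.last _) ≠ β ∧ y (Fin.last _) ≠ β ∧
        (Fin.cons z t : Fin (n + 1 + 1) → α) 0 = x0 ∧ y 0 = y0 then (1 : ℂ) else 0) =
      if x0 = y0 then 0 else ∑ x1, if x1 = x0 then 0 else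
        (if PR n m (K w) t y ∧ t (Fin.last _) ≠ β ∧ y (Fin.last _) ≠ β ∧ t 0 = x1 ∧ y 0 = y0
          then (1 : ℂ) else 0) := by
    intro t y
    have e1 : ∀ z : α, (Fin.cons z t : Fin (n + 1 + 1) → α) (Fin.last _) = t (Fin.last _) :=
      fun z => rfl
    have e2 : ∀ z : α, (Fin.cons z t : Fin (n + 1 + 1) → α) 0 = z := fun z => rfl
    simp only [PR_false, e1, e2]
    rw [Finset.sum_eq_single x0]
    · by_cases h : x0 = y0
      · rw [if_pos h, if_neg]
        rintro ⟨⟨-, h1, -⟩, -, -, -, h2⟩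
        exact h1 (h.trans h2.symm)
      · rw [if_neg h, Finset.sum_eq_single (t 0)]
        · by_cases h0 : t 0 = x0
          · rw [if_pos h0, if_neg]
            rintro ⟨⟨h1, -⟩, -⟩
            exact h1 h0.symm
          · rw [if_neg h0]
            congr 1
            simp only [true_and, eq_iff_iff]
            constructor
            · rintro ⟨⟨-, -, h1⟩, h2, h3, h4⟩
              exact ⟨h1, h2, h3, h4⟩
            · rintro ⟨h1, h2, h3, h4⟩
              exact ⟨⟨fun e => h0 e.symm, fun e => h (e.trans h4), h1⟩, h2, h3, h4⟩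
        · intro b _ hb
          rw [if_neg (show ¬ (PR n m (K w) t y ∧ t (Fin.last _) ≠ β ∧ y (Fin.last _) ≠ β ∧
            t 0 = b ∧ y 0 = y0) from fun h => hb h.2.2.2.1.symm)]
          simp
        · simp
    · intro b _ hb
      rw [if_neg]
      rintro ⟨-, -, -, h, -⟩
      exact hb h
    · simp
  calc _ = ∑ t : Fin (n + 1) → α, ∑ y : Fin (m + 1) → α, (∑ z : α,
      if PR (n + 1) m (K (false :: w)) (Fin.cons z t : Fin (n + 1 + 1) → α) y ∧
        (Fin.cons z t : Fin (n + 1 + 1) → α) (Fin.last _) ≠ β ∧ y (Fin.last _) ≠ β ∧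
        (Fin.cons z t : Fin (n + 1 + 1) → α) 0 = x0 ∧ y 0 = y0 then (1 : ℂ) else 0) := by
        apply Finset.sum_congr rfl; intro t _
        rw [Finset.sum_comm]
    _ = ∑ t : Fin (n + 1) → α, ∑ y : Fin (m + 1) → α, (if x0 = y0 then 0 else
        ∑ x1, if x1 = x0 then 0 else
        (if PR n m (K w) t y ∧ t (Fin.last _) ≠ β ∧ y (Fin.last _) ≠ β ∧ t 0 = x1 ∧ y 0 = y0
          then (1 : ℂ) else 0)) := by
        apply Finset.sum_congr rfl; intro t _
        apply Finset.sum_congr rfl; intro y _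
        exact key t y
    _ = _ := by
        by_cases h : x0 = y0
        · simp [h]
        · simp only [if_neg h]
          calc _ = ∑ t : Fin (n + 1) → α, ∑ x1, ∑ y : Fin (m + 1) → α, (if x1 = x0 then 0 else
            (if PR n m (K w) t y ∧ t (Fin.last _) ≠ β ∧ y (Fin.last _) ≠ β ∧ t 0 = x1 ∧ y 0 = y0
              then (1 : ℂ) else 0)) := by
                apply Finset.sum_congr rfl; intro t _
                rw [Finset.sum_comm]
            _ = _ := by
                rw [Finset.sum_comm]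
                apply Finset.sum_congr rfl; intro x1 _
                split_ifs with h1
                · simp
                · rfl

lemma Nst_true (w : List Bool) (n m : ℕ) (β x0 y0 : α) : Nst n (m + 1) (K (true :: w)) β x0 y0 =
    if x0 = y0 then 0 else ∑ y1, if y1 = y0 then 0 else Nst n m (K w) β x0 y1 := by
  rw [Nst]
  have key : ∀ (x : Fin (n + 1) → α) (t : Fin (m + 1) → α), (∑ z : α,
      if PR n (m + 1) (K (true :: w)) x (Fin.cons z t : Fin (m + 1 + 1) → α) ∧
        x (Fin.last _) ≠ β ∧ (Fin.cons z t : Fin (m + 1 + 1) → α) (Fin.last _) ≠ β ∧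
        x 0 = x0 ∧ (Fin.cons z t : Fin (m + 1 + 1) → α) 0 = y0 then (1 : ℂ) else 0) =
      if x0 = y0 then 0 else ∑ y1, if y1 = y0 then 0 else
        (if PR n m (K w) x t ∧ x (Fin.last _) ≠ β ∧ t (Fin.last _) ≠ β ∧ x 0 = x0 ∧ t 0 = y1
          then (1 : ℂ) else 0) := by
    intro x t
    have e1 : ∀ z : α, (Fin.cons z t : Fin (m + 1 + 1) → α) (Fin.last _) = t (Fin.last _) :=
      fun z => rfl
    have e2 : ∀ z : α, (Fin.cons z t : Fin (m + 1 + 1) → α) 0 = z := fun z => rfl
    simp only [PR_true, e1, e2]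
    rw [Finset.sum_eq_single y0]
    · by_cases h : x0 = y0
      · rw [if_pos h, if_neg]
        rintro ⟨⟨-, h1, -⟩, -, -, h2, -⟩
        exact h1 (h2.trans h)
      · rw [if_neg h, Finset.sum_eq_single (t 0)]
        · by_cases h0 : t 0 = y0
          · rw [if_pos h0, if_neg]
            rintro ⟨⟨h1, -⟩, -⟩
            exact h1 h0.symm
          · rw [if_neg h0]
            congr 1
            simp only [and_true, eq_iff_iff]
            constructor
            · rintro ⟨⟨-, -, h1⟩, h2, h3, h4⟩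
              exact ⟨h1, h2, h3, h4⟩
            · rintro ⟨h1, h2, h3, h4⟩
              exact ⟨⟨fun e => h0 e.symm, fun e => h (h4.symm.trans e), h1⟩, h2, h3, h4⟩
        · intro b _ hb
          rw [if_neg (show ¬ (PR n m (K w) x t ∧ x (Fin.last _) ≠ β ∧ t (Fin.last _) ≠ β ∧
            x 0 = x0 ∧ t 0 = b) from fun h => hb h.2.2.2.2.symm)]
          simp
        · simp
    · intro b _ hb
      rw [if_neg]
      rintro ⟨-, -, -, -, h⟩
      exact hb h
    · simp
  calc _ = ∑ x : Fin (n + 1) → α, ∑ t : Fin (m + 1) → α, (∑ z : α,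
      if PR n (m + 1) (K (true :: w)) x (Fin.cons z t : Fin (m + 1 + 1) → α) ∧
        x (Fin.last _) ≠ β ∧ (Fin.cons z t : Fin (m + 1 + 1) → α) (Fin.last _) ≠ β ∧
        x 0 = x0 ∧ (Fin.cons z t : Fin (m + 1 + 1) → α) 0 = y0 then (1 : ℂ) else 0) := by
        apply Finset.sum_congr rfl; intro x _
        rw [sum_fin_succ, Finset.sum_comm]
    _ = ∑ x : Fin (n + 1) → α, ∑ t : Fin (m + 1) → α, (if x0 = y0 then 0 else
        ∑ y1, if y1 = y0 then 0 else
        (if PR n m (K w) x t ∧ x (Fin.last _) ≠ β ∧ t (Fin.last _) ≠ β ∧ x 0 = x0 ∧ t 0 = y1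
          then (1 : ℂ) else 0)) := by
        apply Finset.sum_congr rfl; intro x _
        apply Finset.sum_congr rfl; intro t _
        exact key x t
    _ = _ := by
        by_cases h : x0 = y0
        · simp [h]
        · simp only [if_neg h]
          calc _ = ∑ x : Fin (n + 1) → α, ∑ y1, ∑ t : Fin (m + 1) → α, (if y1 = y0 then 0 else
            (if PR n m (K w) x t ∧ x (Fin.last _) ≠ β ∧ t (Fin.last _) ≠ β ∧ x 0 = x0 ∧ t 0 = y1
              then (1 : ℂ) else 0)) := by
                apply Finset.sum_congr rfl; intro t _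
                rw [Finset.sum_comm]
            _ = _ := by
                rw [Finset.sum_comm]
                apply Finset.sum_congr rfl; intro x1 _
                split_ifs with h1
                · simp
                · rfl

lemma sum_excl (f : α → ℂ) (τ : α) : ∑ x, (if x = τ then 0 else f x) = ∑ x, f x - f τ := by
  rw [eq_sub_iff_add_eq, ← Finset.sum_erase_add (s := univ) (f := f) (a := τ) (Finset.mem_univ _)]
  congr 1
  rw [← Finset.sum_erase_add (s := univ) (a := τ) (h := Finset.mem_univ _)]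
  simp only [if_true, add_zero]
  apply Finset.sum_congr rfl
  intro x hx
  rw [if_neg (Finset.ne_of_mem_erase hx)]

lemma sum_excl2 (f : α → ℂ) (τ y : α) (h : y ≠ τ) :
    ∑ x, (if x = τ then 0 else if x = y then 0 else f x) = ∑ x, f x - f τ - f y := by
  rw [sum_excl, sum_excl]
  rw [if_neg h.symm]
  ring

lemma sum_ind (a b : ℂ) (β : α) :
    ∑ x : α, (a + b * (if x = β then 1 else 0)) = Fintype.card α * a + b := by
  rw [Finset.sum_add_distrib, ← Finset.mul_sum]
  simp

/-- closed form for the strip -/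
lemma Nst_eq (w : List Bool) (β x0 y0 : α) : Nst (na w) (nb w) (K w) β x0 y0 =
    if x0 = y0 then 0 else (D (Fintype.card α : ℂ) w).1 +
      (D (Fintype.card α : ℂ) w).2.1 * (if x0 = β then 1 else 0) +
      (D (Fintype.card α : ℂ) w).2.2 * (if y0 = β then 1 else 0) := by
  induction w generalizing x0 y0 with
  | nil => exact Nst_nil β x0 y0
  | cons b w ih =>
    cases b
    · have : Nst (na (false :: w)) (nb (false :: w)) (K (false :: w)) β x0 y0 =
        Nst (na w + 1) (nb w) (K (false :: w)) β x0 y0 := rfl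
      rw [this, Nst_false]
      by_cases h : x0 = y0
      · rw [if_pos h, if_pos h]
      · rw [if_neg h, if_neg h]
        simp only [ih]
        rw [sum_excl2 _ x0 y0 (fun e => h e.symm)]
        have e : ∀ x : α, (D (Fintype.card α : ℂ) w).1 +
            (D (Fintype.card α : ℂ) w).2.1 * (if x = β then 1 else 0) +
            (D (Fintype.card α : ℂ) w).2.2 * (if y0 = β then 1 else 0) =
            ((D (Fintype.card α : ℂ) w).1 + (D (Fintype.card α : ℂ) w).2.2 *
            (if y0 = β then 1 else 0)) + (D (Fintype.card α : ℂ) w).2.1 *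
            (if x = β then 1 else 0) := by intro x; ring
        simp only [e]
        rw [sum_ind]
        simp only [D]
        split_ifs <;> ring
    · have : Nst (na (true :: w)) (nb (true :: w)) (K (true :: w)) β x0 y0 =
        Nst (na w) (nb w + 1) (K (true :: w)) β x0 y0 := rfl
      rw [this, Nst_true]
      by_cases h : x0 = y0
      · rw [if_pos h, if_pos h]
      · rw [if_neg h, if_neg h]
        simp only [ih]
        have e0 : ∀ (x : α) (a : ℂ), (if x = y0 then 0 else if x0 = x then 0 else a) =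
            (if x = y0 then 0 else if x = x0 then 0 else a) := by
          intro x a; simp only [eq_comm]
        simp only [e0]
        rw [sum_excl2 _ y0 x0 h]
        rw [sum_ind]
        simp only [D]
        split_ifs <;> ring

end Pool.Agent.Ch3
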