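import Pool.Agent.Ch3.Count

/-!
# Counting colourings of the whole graph
-/

namespace Pool.Agent.Ch3

open Finset Classical

variable {α : Type} [Fintype α]

/-- colour functions on a strip -/
abbrev Sf (α : Type) (n m : ℕ) := (Fin (n + 1) → α) × (Fin (m + 1) → α)

/-- a strip is properly coloured and compatible with the hub colours -/
def Ok {n m : ℕ} (k : ℕ → ℕ → Prop) (τ β : α) (s : Sf α n m) : Prop :=
  PR n m k s.1 s.2 ∧ s.1 0 ≠ τ ∧ s.2 0 ≠ τ ∧ s.1 (Fin.last _) ≠ β ∧ s.2 (Fin.last _) ≠ β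

lemma T_eq (n m : ℕ) (k : ℕ → ℕ → Prop) (τ β : α) (f : α → α → ℂ) :
    (∑ s : Sf α n m, if Ok k τ β s then f (s.1 0) (s.2 0) else 0) =
    ∑ x, ∑ y, if x = τ then 0 else if y = τ then 0 else Nst n m k β x y * f x y := by
  symm
  calc _ = ∑ x, ∑ y, ∑ s : Sf α n m, (if x = τ then 0 else if y = τ then 0 else
        (if PR n m k s.1 s.2 ∧ s.1 (Fin.last _) ≠ β ∧ s.2 (Fin.last _) ≠ β ∧ s.1 0 = x ∧
          s.2 0 = y then 1 else 0) * f x y) := by
        apply Finset.sum_congr rfl; intro x _
        apply Finset.sum_congr rfl; intro y _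
        split_ifs with h1 h2
        · simp
        · simp
        · rw [Nst, Fintype.sum_prod_type, Finset.sum_mul]
          apply Finset.sum_congr rfl; intro x' _
          rw [Finset.sum_mul]
    _ = ∑ s : Sf α n m, ∑ x, ∑ y, (if x = τ then 0 else if y = τ then 0 else
        (if PR n m k s.1 s.2 ∧ s.1 (Fin.last _) ≠ β ∧ s.2 (Fin.last _) ≠ β ∧ s.1 0 = x ∧
          s.2 0 = y then 1 else 0) * f x y) := by
        rw [Finset.sum_comm]
        rw [← Finset.sum_comm]
        rw [Finset.sum_comm]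
        calc _ = ∑ x, ∑ s : Sf α n m, ∑ y, (if x = τ then 0 else if y = τ then 0 else
          (if PR n m k s.1 s.2 ∧ s.1 (Fin.last _) ≠ β ∧ s.2 (Fin.last _) ≠ β ∧ s.1 0 = x ∧
          s.2 0 = y then 1 else 0) * f x y) := by
              rw [Finset.sum_comm]
              apply Finset.sum_congr rfl; intro x _
              rw [Finset.sum_comm]
          _ = _ := by rw [Finset.sum_comm]
    _ = _ := by
        apply Finset.sum_congr rfl; intro s _
        rw [Finset.sum_eq_single (s.1 0)]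
        · rw [Finset.sum_eq_single (s.2 0)]
          · by_cases h1 : s.1 0 = τ
            · rw [if_pos h1, if_neg]
              exact fun h => h.2.1 h1
            · by_cases h2 : s.2 0 = τ
              · rw [if_neg h1, if_pos h2, if_neg]
                exact fun h => h.2.2.1 h2
              · rw [if_neg h1, if_neg h2]
                by_cases h3 : Ok k τ β s
                · rw [if_pos h3, if_pos, one_mul]
                  exact ⟨h3.1, h3.2.2.2.1, h3.2.2.2.2, rfl, rfl⟩
                · rw [if_neg h3, if_neg, zero_mul]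
                  rintro ⟨h4, h5, h6, -, -⟩
                  exact h3 ⟨h4, h1, h2, h5, h6⟩
          · intro b _ hb
            rw [if_neg (show ¬ (PR n m k s.1 s.2 ∧ s.1 (Fin.last _) ≠ β ∧
              s.2 (Fin.last _) ≠ β ∧ s.1 0 = s.1 0 ∧ s.2 0 = b) from
              fun h => hb h.2.2.2.2.symm)]
            simp
          · simp
        · intro b _ hb
          apply Finset.sum_eq_zero
          intro y _
          rw [if_neg (show ¬ (PR n m k s.1 s.2 ∧ s.1 (Fin.last _) ≠ β ∧
              s.2 (Fin.last _) ≠ β ∧ s.1 0 = b ∧ s.2 0 = y) from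
              fun h => hb h.2.2.2.1.symm)]
          simp
        · simp

/-- links between consecutive strips -/
def Lk {n m p : ℕ} (s : Fin p → Sf α n m) : Prop :=
  ∀ i j : Fin p, i.val + 1 = j.val → (s i).2 0 ≠ (s j).1 0

/-- number of colourings of a chain of `p` strips, the preceding right colour being `y0` -/
noncomputable def Ch (n m : ℕ) (k : ℕ → ℕ → Prop) (p : ℕ) (τ β y0 : α) : ℂ :=
  ∑ s : Fin p → Sf α n m, if (∀ i, Ok k τ β (s i)) ∧ Lk s ∧
    (∀ j : Fin p, j.val = 0 → y0 ≠ (s j).1 0) then 1 else 0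

lemma Ch_zero (n m : ℕ) (k : ℕ → ℕ → Prop) (τ β y0 : α) : Ch n m k 0 τ β y0 = 1 := by
  rw [Ch]
  simp [Lk]

omit [Fintype α] in
lemma Lk_cons {n m p : ℕ} (s0 : Sf α n m) (s : Fin p → Sf α n m) :
    Lk (Fin.cons s0 s : Fin (p + 1) → Sf α n m) ↔
      (∀ j : Fin p, j.val = 0 → s0.2 0 ≠ (s j).1 0) ∧ Lk s := by
  constructor
  · intro h
    refine ⟨?_, ?_⟩
    · intro j hj
      exact h 0 j.succ (by simp [hj])
    · intro i j hij
      exact h i.succ j.succ (by simp only [Fin.val_succ]; omega)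
  · rintro ⟨h1, h2⟩ i j
    refine Fin.cases ?_ (fun i => ?_) i
    · refine Fin.cases ?_ (fun j => ?_) j
      · intro h; simp at h
      · intro h
        exact h1 j (by simp only [Fin.val_succ, Fin.val_zero] at h; omega)
    · refine Fin.cases ?_ (fun j => ?_) j
      · intro h; simp at h
      · intro h
        exact h2 i j (by simp only [Fin.val_succ] at h; omega)

lemma sum_fun_succ {β' : Type} [Fintype β'] {n : ℕ} (F : (Fin (n + 1) → β') → ℂ) :
    ∑ x, F x = ∑ x0, ∑ t : Fin n → β', F (Fin.cons x0 t) := sum_fin_succ F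

lemma chain_cons (n m : ℕ) (k : ℕ → ℕ → Prop) (p : ℕ) (τ β : α) (s0 : Sf α n m) :
    (∑ s : Fin p → Sf α n m, if (∀ i, Ok k τ β ((Fin.cons s0 s : Fin (p + 1) → Sf α n m) i)) ∧
      Lk (Fin.cons s0 s : Fin (p + 1) → Sf α n m) then (1 : ℂ) else 0) =
    if Ok k τ β s0 then Ch n m k p τ β (s0.2 0) else 0 := by
  by_cases h : Ok k τ β s0
  · rw [if_pos h, Ch]
    apply Finset.sum_congr rfl
    intro s _
    congr 1
    rw [Lk_cons, Fin.forall_fin_succ]
    simp only [Fin.cons_zero, Fin.cons_succ, eq_iff_iff]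
    tauto
  · rw [if_neg h]
    apply Finset.sum_eq_zero
    intro s _
    rw [if_neg]
    rintro ⟨h1, -⟩
    exact h (h1 0)

lemma Ch_succ (n m : ℕ) (k : ℕ → ℕ → Prop) (p : ℕ) (τ β y0 : α) :
    Ch n m k (p + 1) τ β y0 = ∑ x, ∑ y, if x = τ then 0 else if y = τ then 0 else
      Nst n m k β x y * (if x = y0 then 0 else Ch n m k p τ β y) := by
  rw [← T_eq n m k τ β (fun x y => if x = y0 then 0 else Ch n m k p τ β y), Ch, sum_fun_succ]
  apply Finset.sum_congr rfl
  intro s0 _
  by_cases h : s0.1 0 = y0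
  · simp only [h, if_true]
    rw [ite_self]
    apply Finset.sum_eq_zero
    intro s _
    rw [if_neg]
    rintro ⟨-, -, h1⟩
    exact h1 0 rfl h.symm
  · simp only [if_neg h]
    rw [← chain_cons]
    apply Finset.sum_congr rfl
    intro s _
    congr 1
    simp only [eq_iff_iff]
    constructor
    · rintro ⟨h1, h2, -⟩
      exact ⟨h1, h2⟩
    · rintro ⟨h1, h2⟩
      refine ⟨h1, h2, ?_⟩
      intro j
      refine Fin.cases ?_ (fun j => ?_) j
      · intro _
        exact fun e => h e.symm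
      · intro e; simp at e

/-- number of colourings of a row of `p` strips -/
noncomputable def Tot (n m : ℕ) (k : ℕ → ℕ → Prop) (p : ℕ) (τ β : α) : ℂ :=
  ∑ s : Fin p → Sf α n m, if (∀ i, Ok k τ β (s i)) ∧ Lk s then 1 else 0

lemma Tot_succ (n m : ℕ) (k : ℕ → ℕ → Prop) (p : ℕ) (τ β : α) :
    Tot n m k (p + 1) τ β = ∑ x, ∑ y, if x = τ then 0 else if y = τ then 0 else
      Nst n m k β x y * Ch n m k p τ β y := by
  rw [← T_eq n m k τ β (fun x y => Ch n m k p τ β y), Tot, sum_fun_succ]
  apply Finset.sum_congr rfl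
  intro s0 _
  rw [chain_cons]

section Closed

variable (w : List Bool) (p : ℕ) (τ β : α)


lemma inner_ne (h : τ ≠ β) (R P : ℂ) (c : α → ℂ)
    (hc : ∀ y, y ≠ τ → c y = R + (P - R) * (if y = β then 1 else 0)) (x : α) (hx : x ≠ τ) :
    (∑ y, if y = τ then 0 else Nst (na w) (nb w) (K w) β x y * c y) =
    (F (Fintype.card α : ℂ) (D (Fintype.card α : ℂ) w) (R, P)).1 + ((F (Fintype.card α : ℂ) (D (Fintype.card α : ℂ) w) (R, P)).2 - (F (Fintype.card α : ℂ) (D (Fintype.card α : ℂ) w) (R, P)).1) * (if x = β then 1 else 0) := by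
  have h1 : ∀ y, (if y = τ then 0 else Nst (na w) (nb w) (K w) β x y * c y) =
      (if y = τ then 0 else if y = x then 0 else
        (((D (Fintype.card α : ℂ) w).1 + (D (Fintype.card α : ℂ) w).2.1 * (if x = β then 1 else 0)) * R +
        (((D (Fintype.card α : ℂ) w).1 + (D (Fintype.card α : ℂ) w).2.1 * (if x = β then 1 else 0)) * (P - R) + (D (Fintype.card α : ℂ) w).2.2 * P) *
        (if y = β then 1 else 0))) := by
    intro y
    by_cases h2 : y = τ
    · simp [h2]
    · rw [if_neg h2, if_neg h2, Nst_eq, hc y h2]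
      by_cases h3 : y = x
      · rw [if_pos h3, if_pos h3.symm, zero_mul]
      · rw [if_neg h3, if_neg (fun e => h3 e.symm)]
        by_cases h4 : y = β
        · rw [if_pos h4]; ring
        · rw [if_neg h4]; ring
  simp only [h1]
  rw [sum_excl2 _ τ x hx, sum_ind, if_neg h]
  simp only [F]
  split_ifs <;> ring

lemma inner_eq (C : ℂ) (c : α → ℂ) (hc : ∀ y, y ≠ τ → c y = C) (x : α) (hx : x ≠ τ) :
    (∑ y, if y = τ then 0 else Nst (na w) (nb w) (K w) τ x y * c y) = ((Fintype.card α : ℂ) - 2) * (D (Fintype.card α : ℂ) w).1 * C := by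
  have h1 : ∀ y, (if y = τ then 0 else Nst (na w) (nb w) (K w) τ x y * c y) =
      (if y = τ then 0 else if y = x then 0 else ((D (Fintype.card α : ℂ) w).1 * C + 0 * (if y = τ then 1 else 0))) := by
    intro y
    by_cases h2 : y = τ
    · simp [h2]
    · rw [if_neg h2, if_neg h2, Nst_eq, hc y h2]
      by_cases h3 : y = x
      · rw [if_pos h3, if_pos h3.symm, zero_mul]
      · rw [if_neg h3, if_neg (fun e => h3 e.symm), if_neg hx, if_neg h2]
        ring
  simp only [h1]
  rw [sum_excl2 _ τ x hx, sum_ind]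
  ring

lemma Ch_ne (h : τ ≠ β) : ∀ y, y ≠ τ → Ch (na w) (nb w) (K w) p τ β y =
    (H (Fintype.card α : ℂ) (D (Fintype.card α : ℂ) w) p).1 + ((H (Fintype.card α : ℂ) (D (Fintype.card α : ℂ) w) p).2 - (H (Fintype.card α : ℂ) (D (Fintype.card α : ℂ) w) p).1) * (if y = β then 1 else 0) := by
  induction p with
  | zero => intro y _; rw [Ch_zero]; simp [H]
  | succ p ih =>
    intro y hy
    rw [Ch_succ]
    have h1 : ∀ x, (∑ z, if x = τ then 0 else if z = τ then 0 else
      Nst (na w) (nb w) (K w) β x z * (if x = y then 0 else Ch (na w) (nb w) (K w) p τ β z)) =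
      if x = τ then 0 else if x = y then 0 else
        ((F (Fintype.card α : ℂ) (D (Fintype.card α : ℂ) w) (H (Fintype.card α : ℂ) (D (Fintype.card α : ℂ) w) p)).1 + ((F (Fintype.card α : ℂ) (D (Fintype.card α : ℂ) w) (H (Fintype.card α : ℂ) (D (Fintype.card α : ℂ) w) p)).2 - (F (Fintype.card α : ℂ) (D (Fintype.card α : ℂ) w) (H (Fintype.card α : ℂ) (D (Fintype.card α : ℂ) w) p)).1) *
          (if x = β then 1 else 0)) := by
      intro x
      by_cases h2 : x = τ
      · simp [h2]
      · simp only [if_neg h2]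
        by_cases h3 : x = y
        · simp [h3]
        · simp only [if_neg h3]
          exact inner_ne w τ β h _ _ _ ih x h2
    simp only [h1]
    rw [sum_excl2 _ τ y hy, sum_ind, if_neg h]
    simp only [H, S]
    split_ifs <;> ring

lemma Ch_eq : ∀ y, y ≠ τ → Ch (na w) (nb w) (K w) p τ τ y = (((Fintype.card α : ℂ) - 2) ^ 2 * (D (Fintype.card α : ℂ) w).1) ^ p := by
  induction p with
  | zero => intro y _; rw [Ch_zero]; simp
  | succ p ih =>
    intro y hy
    rw [Ch_succ]
    have h1 : ∀ x, (∑ z, if x = τ then 0 else if z = τ then 0 else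
      Nst (na w) (nb w) (K w) τ x z * (if x = y then 0 else Ch (na w) (nb w) (K w) p τ τ z)) =
      if x = τ then 0 else if x = y then 0 else
        (((Fintype.card α : ℂ) - 2) * (D (Fintype.card α : ℂ) w).1 * (((Fintype.card α : ℂ) - 2) ^ 2 * (D (Fintype.card α : ℂ) w).1) ^ p + 0 * (if x = τ then 1 else 0)) := by
      intro x
      by_cases h2 : x = τ
      · simp [h2]
      · simp only [if_neg h2]
        by_cases h3 : x = y
        · simp [h3]
        · simp only [if_neg h3]
          rw [inner_eq w τ _ _ ih x h2]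
          ring
    simp only [h1]
    rw [sum_excl2 _ τ y hy, sum_ind]
    ring

lemma Tot_ne (h : τ ≠ β) : Tot (na w) (nb w) (K w) (p + 1) τ β =
    ((Fintype.card α : ℂ) - 2) * (F (Fintype.card α : ℂ) (D (Fintype.card α : ℂ) w) (H (Fintype.card α : ℂ) (D (Fintype.card α : ℂ) w) p)).1 + (F (Fintype.card α : ℂ) (D (Fintype.card α : ℂ) w) (H (Fintype.card α : ℂ) (D (Fintype.card α : ℂ) w) p)).2 := by
  rw [Tot_succ]
  have h1 : ∀ x, (∑ z, if x = τ then 0 else if z = τ then 0 else
      Nst (na w) (nb w) (K w) β x z * Ch (na w) (nb w) (K w) p τ β z) =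
      if x = τ then 0 else
        ((F (Fintype.card α : ℂ) (D (Fintype.card α : ℂ) w) (H (Fintype.card α : ℂ) (D (Fintype.card α : ℂ) w) p)).1 + ((F (Fintype.card α : ℂ) (D (Fintype.card α : ℂ) w) (H (Fintype.card α : ℂ) (D (Fintype.card α : ℂ) w) p)).2 - (F (Fintype.card α : ℂ) (D (Fintype.card α : ℂ) w) (H (Fintype.card α : ℂ) (D (Fintype.card α : ℂ) w) p)).1) *
          (if x = β then 1 else 0)) := by
    intro x
    by_cases h2 : x = τ
    · simp [h2]
    · simp only [if_neg h2]
      exact inner_ne w τ β h _ _ _ (Ch_ne w p τ β h) x h2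
  simp only [h1]
  rw [sum_excl, sum_ind, if_neg h]
  ring

lemma Tot_eq : Tot (na w) (nb w) (K w) (p + 1) τ τ =
    ((Fintype.card α : ℂ) - 1) * (((Fintype.card α : ℂ) - 2) * (D (Fintype.card α : ℂ) w).1 * (((Fintype.card α : ℂ) - 2) ^ 2 * (D (Fintype.card α : ℂ) w).1) ^ p) := by
  rw [Tot_succ]
  have h1 : ∀ x, (∑ z, if x = τ then 0 else if z = τ then 0 else
      Nst (na w) (nb w) (K w) τ x z * Ch (na w) (nb w) (K w) p τ τ z) =
      if x = τ then 0 else
        (((Fintype.card α : ℂ) - 2) * (D (Fintype.card α : ℂ) w).1 * (((Fintype.card α : ℂ) - 2) ^ 2 * (D (Fintype.card α : ℂ) w).1) ^ p + 0 * (if x = τ then 1 else 0)) := by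
    intro x
    by_cases h2 : x = τ
    · simp [h2]
    · simp only [if_neg h2]
      rw [inner_eq w τ _ _ (Ch_eq w p τ) x h2]
      ring
  simp only [h1]
  rw [sum_excl, sum_ind]
  ring

end Closed

/-- decomposition of the colourings of the vertex set -/
def decomp (α : Type) (w : List Bool) (p : ℕ) :
    (V w p → α) ≃ (α × α) × (Fin p → Sf α (na w) (nb w)) where
  toFun c := ((c (.inl false), c (.inl true)), fun i =>
    (fun l => c (.inr (i, .inl l)), fun r => c (.inr (i, .inr r))))
  invFun t := fun v => match v with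
    | .inl false => t.1.1
    | .inl true => t.1.2
    | .inr (i, .inl l) => (t.2 i).1 l
    | .inr (i, .inr r) => (t.2 i).2 r
  left_inv c := by
    funext v
    rcases v with b | ⟨i, l | r⟩
    · cases b <;> rfl
    · rfl
    · rfl
  right_inv t := by
    rfl

omit [Fintype α] in
lemma proper_iff (w : List Bool) (p : ℕ) (t : (α × α) × (Fin p → Sf α (na w) (nb w))) :
    (∀ x y, rel w p x y → (decomp α w p).symm t x ≠ (decomp α w p).symm t y) ↔
    (∀ i, Ok (K w) t.1.1 t.1.2 (t.2 i)) ∧ Lk t.2 := by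
  obtain ⟨⟨τ, β⟩, s⟩ := t
  constructor
  · intro h
    refine ⟨fun i => ⟨⟨?_, ?_, ?_⟩, ?_, ?_, ?_, ?_⟩, ?_⟩
    · intro l l' hl
      exact h (.inr (i, .inl l)) (.inr (i, .inl l')) ⟨rfl, hl⟩
    · intro l l' hl
      exact h (.inr (i, .inr l)) (.inr (i, .inr l')) ⟨rfl, hl⟩
    · intro l r hl
      exact h (.inr (i, .inl l)) (.inr (i, .inr r)) ⟨rfl, hl⟩
    · exact fun e => h (.inl false) (.inr (i, .inl 0)) rfl e.symm
    · exact fun e => h (.inl false) (.inr (i, .inr 0)) rfl e.symm
    · exact fun e => h (.inl true) (.inr (i, .inl (Fin.last _))) rfl e.symm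
    · exact fun e => h (.inl true) (.inr (i, .inr (Fin.last _))) rfl e.symm
    · intro i j hij
      exact h (.inr (i, .inr 0)) (.inr (j, .inl 0)) ⟨hij, rfl, rfl⟩
  · rintro ⟨h1, h2⟩ x y hxy
    rcases x with b | ⟨i, l | r⟩
    · rcases y with b' | ⟨j, l' | r'⟩
      · exfalso
        cases b <;> exact hxy
      · cases b
        · have : l' = 0 := Fin.ext hxy
          subst this
          exact fun e => (h1 j).2.1 e.symm
        · have : l' = Fin.last _ := Fin.ext hxy
          subst this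
          exact fun e => (h1 j).2.2.2.1 e.symm
      · cases b
        · have : r' = 0 := Fin.ext hxy
          subst this
          exact fun e => (h1 j).2.2.1 e.symm
        · have : r' = Fin.last _ := Fin.ext hxy
          subst this
          exact fun e => (h1 j).2.2.2.2 e.symm
    · rcases y with b' | ⟨j, l' | r'⟩
      · exact hxy.elim
      · obtain ⟨rfl, h⟩ := hxy
        exact (h1 i).1.1 l l' h
      · obtain ⟨rfl, h⟩ := hxy
        exact (h1 i).1.2.2 l r' h
    · rcases y with b' | ⟨j, l' | r'⟩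
      · exact hxy.elim
      · obtain ⟨h, h3, h4⟩ := hxy
        have h3' : r = 0 := Fin.ext h3
        have h4' : l' = 0 := Fin.ext h4
        subst h3' h4'
        exact h2 i j h
      · obtain ⟨rfl, h⟩ := hxy
        exact (h1 i).1.2.1 r r' h

lemma card_colorings (w : List Bool) (p : ℕ) :
    (Fintype.card {c : V w (p + 1) → α // ∀ x y, rel w (p + 1) x y → c x ≠ c y} : ℂ) =
    Ptot (Fintype.card α : ℂ) w p := by
  rw [Fintype.card_subtype, Finset.card_filter, Nat.cast_sum]
  simp only [Nat.cast_ite, Nat.cast_one, Nat.cast_zero]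
  rw [← (decomp α w (p + 1)).symm.sum_comp]
  simp only [proper_iff]
  rw [Fintype.sum_prod_type, Fintype.sum_prod_type]
  have h1 : ∀ τ β : α, (∑ s : Fin (p + 1) → Sf α (na w) (nb w),
      if (∀ i, Ok (K w) τ β (s i)) ∧ Lk s then (1 : ℂ) else 0) =
      (Fintype.card α - 2) * (F (Fintype.card α : ℂ) (D (Fintype.card α : ℂ) w)
        (H (Fintype.card α : ℂ) (D (Fintype.card α : ℂ) w) p)).1 +
        (F (Fintype.card α : ℂ) (D (Fintype.card α : ℂ) w)
        (H (Fintype.card α : ℂ) (D (Fintype.card α : ℂ) w) p)).2 +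
      (((Fintype.card α : ℂ) - 1) * (((Fintype.card α : ℂ) - 2) *
        (D (Fintype.card α : ℂ) w).1 * (((Fintype.card α : ℂ) - 2) ^ 2 *
        (D (Fintype.card α : ℂ) w).1) ^ p) -
        ((Fintype.card α - 2) * (F (Fintype.card α : ℂ) (D (Fintype.card α : ℂ) w)
        (H (Fintype.card α : ℂ) (D (Fintype.card α : ℂ) w) p)).1 +
        (F (Fintype.card α : ℂ) (D (Fintype.card α : ℂ) w)
        (H (Fintype.card α : ℂ) (D (Fintype.card α : ℂ) w) p)).2)) *
        (if β = τ then 1 else 0) := by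
    intro τ β
    have h2 : (∑ s : Fin (p + 1) → Sf α (na w) (nb w),
      if (∀ i, Ok (K w) τ β (s i)) ∧ Lk s then (1 : ℂ) else 0) =
      Tot (na w) (nb w) (K w) (p + 1) τ β := rfl
    rw [h2]
    by_cases h : β = τ
    · subst h
      rw [Tot_eq, if_pos rfl]
      ring
    · rw [if_neg h, Tot_ne w p τ β (fun e => h e.symm)]
      ring
  simp only [h1]
  simp only [sum_ind]
  rw [Finset.sum_const, Finset.card_univ, nsmul_eq_mul, Ptot]
  ring

lemma natcard_colorings (w : List Bool) (p : ℕ) :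
    (Nat.card {c : V w (p + 1) → α // ∀ x y, rel w (p + 1) x y → c x ≠ c y} : ℂ) =
    Ptot (Fintype.card α : ℂ) w p := by
  rw [Nat.card_eq_fintype_card]
  exact card_colorings w p

end Pool.Agent.Ch3
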