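import Mathlib

/-!
# A family of planar 3-connected graphs made of `p` strips between two hubs

A word `w : List Bool` describes a triangulated strip with a left rail with `na w + 1` vertices
and a right rail with `nb w + 1` vertices; the cross edges are given by `K w`.
-/

namespace Pool.Agent.Ch3

/-- number of left steps -/
def na : List Bool → ℕ
  | [] => 0
  | false :: w => na w + 1
  | true :: w => na w

/-- number of right steps -/
def nb : List Bool → ℕ
  | [] => 0
  | false :: w => nb w
  | true :: w => nb w + 1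

/-- cross adjacency in the strip of the word `w` -/
def K : List Bool → ℕ → ℕ → Prop
  | [], i, j => i = 0 ∧ j = 0
  | false :: w, i, j => (i = 0 ∧ j = 0) ∨ (∃ i', i = i' + 1 ∧ K w i' j)
  | true :: w, i, j => (i = 0 ∧ j = 0) ∨ (∃ j', j = j' + 1 ∧ K w i j')

lemma K_zero (w : List Bool) : K w 0 0 := by
  cases w with
  | nil => exact ⟨rfl, rfl⟩
  | cons b w => cases b <;> exact Or.inl ⟨rfl, rfl⟩

lemma K_last (w : List Bool) : K w (na w) (nb w) := by
  induction w with
  | nil => exact ⟨rfl, rfl⟩
  | cons b w ih =>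
    cases b
    · exact Or.inr ⟨na w, rfl, ih⟩
    · exact Or.inr ⟨nb w, rfl, ih⟩

lemma K_le (w : List Bool) : ∀ i j, K w i j → i ≤ na w ∧ j ≤ nb w := by
  induction w with
  | nil => rintro i j ⟨rfl, rfl⟩; simp [na, nb]
  | cons b w ih =>
    intro i j h
    cases b
    · rcases h with ⟨rfl, rfl⟩ | ⟨i', rfl, h⟩
      · simp
      · have := ih _ _ h
        simp only [na, nb]; omega
    · rcases h with ⟨rfl, rfl⟩ | ⟨j', rfl, h⟩
      · simp
      · have := ih _ _ h
        simp only [na, nb]; omega

lemma K_chain (w : List Bool) : ∀ i j i' j', K w i j → K w i' j' →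
    (i ≤ i' ∧ j ≤ j') ∨ (i' ≤ i ∧ j' ≤ j) := by
  induction w with
  | nil => rintro i j i' j' ⟨rfl, rfl⟩ ⟨rfl, rfl⟩; left; omega
  | cons b w ih =>
    intro i j i' j' h h'
    cases b
    · rcases h with ⟨rfl, rfl⟩ | ⟨a, rfl, h⟩
      · left; omega
      rcases h' with ⟨rfl, rfl⟩ | ⟨a', rfl, h'⟩
      · right; omega
      have := ih _ _ _ _ h h'
      omega
    · rcases h with ⟨rfl, rfl⟩ | ⟨a, rfl, h⟩
      · left; omega
      rcases h' with ⟨rfl, rfl⟩ | ⟨a', rfl, h'⟩
      · right; omega
      have := ih _ _ _ _ h h'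
      omega

lemma K_left (w : List Bool) : ∀ i, i ≤ na w → ∃ j, j ≤ nb w ∧ K w i j := by
  induction w with
  | nil => intro i hi; exact ⟨0, le_refl _, by simpa [na] using hi, rfl⟩
  | cons b w ih =>
    intro i hi
    cases b
    · rcases i with _ | i
      · exact ⟨0, Nat.zero_le _, Or.inl ⟨rfl, rfl⟩⟩
      · obtain ⟨j, hj, h⟩ := ih i (by simp only [na] at hi; omega)
        exact ⟨j, hj, Or.inr ⟨i, rfl, h⟩⟩
    · obtain ⟨j, hj, h⟩ := ih i hi
      exact ⟨j + 1, by simp only [nb]; omega, Or.inr ⟨j, rfl, h⟩⟩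

lemma K_right (w : List Bool) : ∀ j, j ≤ nb w → ∃ i, i ≤ na w ∧ K w i j := by
  induction w with
  | nil => intro j hj; exact ⟨0, le_refl _, rfl, by simpa [nb] using hj⟩
  | cons b w ih =>
    intro j hj
    cases b
    · obtain ⟨i, hi, h⟩ := ih j hj
      exact ⟨i + 1, by simp only [na]; omega, Or.inr ⟨i, rfl, h⟩⟩
    · rcases j with _ | j
      · exact ⟨0, Nat.zero_le _, Or.inl ⟨rfl, rfl⟩⟩
      · obtain ⟨i, hi, h⟩ := ih j (by simp only [nb] at hj; omega)
        exact ⟨i, hi, Or.inr ⟨j, rfl, h⟩⟩

/-- vertices of one strip: left rail and right rail -/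
abbrev Strip (w : List Bool) := Fin (na w + 1) ⊕ Fin (nb w + 1)

/-- vertices: two hubs (`inl false` on top, `inl true` at the bottom) and `p` strips -/
abbrev V (w : List Bool) (p : ℕ) := Bool ⊕ (Fin p × Strip w)

/-- The edges, each listed in one direction only. -/
def rel (w : List Bool) (p : ℕ) : V w p → V w p → Prop
  | .inl false, .inr (_, .inl l) => l.val = 0
  | .inl false, .inr (_, .inr r) => r.val = 0
  | .inl true, .inr (_, .inl l) => l.val = na w
  | .inl true, .inr (_, .inr r) => r.val = nb w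
  | .inr (i, .inl l), .inr (j, .inl l') => i = j ∧ l.val + 1 = l'.val
  | .inr (i, .inr r), .inr (j, .inr r') => i = j ∧ r.val + 1 = r'.val
  | .inr (i, .inl l), .inr (j, .inr r) => i = j ∧ K w l.val r.val
  | .inr (i, .inr r), .inr (j, .inl l) => i.val + 1 = j.val ∧ r.val = 0 ∧ l.val = 0
  | _, _ => False

lemma rel_irrefl (w : List Bool) (p : ℕ) (x : V w p) : ¬ rel w p x x := by
  rcases x with b | ⟨i, l | r⟩
  · cases b <;> exact id
  · rintro ⟨-, h⟩; omega
  · rintro ⟨-, h⟩; omega

/-- The graph made of `p` strips of the word `w` and two hubs. -/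
def G (w : List Bool) (p : ℕ) : SimpleGraph (V w p) := SimpleGraph.fromRel (rel w p)

lemma G_adj (w : List Bool) (p : ℕ) (x y : V w p) :
    (G w p).Adj x y ↔ rel w p x y ∨ rel w p y x := by
  rw [G, SimpleGraph.fromRel_adj]
  constructor
  · exact fun h => h.2
  · intro h
    refine ⟨?_, h⟩
    rintro rfl
    exact rel_irrefl w p x (h.elim id id)

section Ring

variable {R : Type*} [CommRing R]

/-- The strip data `(μ, ξ, η)`: the number of colourings of the strip with top colours `x ≠ y`
and bottom colours different from `β` is `μ + ξ [x = β] + η [y = β]`. -/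
def D (q : R) : List Bool → R × R × R
  | [] => (1, -1, -1)
  | false :: w => ((q - 2) * (D q w).1 + (D q w).2.1, -(D q w).2.1,
      (q - 2) * (D q w).2.2 - (D q w).2.1)
  | true :: w => ((q - 2) * (D q w).1 + (D q w).2.2, (q - 2) * (D q w).2.1 - (D q w).2.2,
      -(D q w).2.2)

/-- One strip: from the pair (value at colours `≠ β`, value at colour `β`) of the rest of the
chain to the pair for the colour of the top left vertex. -/
def F (q : R) (d : R × R × R) (h : R × R) : R × R :=
  (d.1 * ((q - 3) * h.1 + h.2) + d.2.2 * h.2, (d.1 + d.2.1) * ((q - 2) * h.1))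

/-- the link step -/
def S (q : R) (f : R × R) : R × R := ((q - 3) * f.1 + f.2, (q - 2) * f.1)

/-- values of the chain of `p` strips -/
def H (q : R) (d : R × R × R) : ℕ → R × R
  | 0 => (1, 1)
  | p + 1 => S q (F q d (H q d p))

/-- The chromatic polynomial of the graph `G w (p + 1)`. -/
def Ptot (q : R) (w : List Bool) (p : ℕ) : R :=
  q * (q - 1) * ((q - 2) * (D q w).1 * ((q - 2) ^ 2 * (D q w).1) ^ p) +
    q * (q - 1) * ((q - 2) * (F q (D q w) (H q (D q w) p)).1 + (F q (D q w) (H q (D q w) p)).2)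

variable {R' : Type*} [CommRing R']

lemma map_D (f : R →+* R') (q : R) (w : List Bool) :
    D (f q) w = (f (D q w).1, f (D q w).2.1, f (D q w).2.2) := by
  induction w with
  | nil => simp [D]
  | cons b w ih => cases b <;> simp [D, ih, map_ofNat f]

lemma map_F (f : R →+* R') (q : R) (d : R × R × R) (h : R × R) :
    F (f q) (f d.1, f d.2.1, f d.2.2) (f h.1, f h.2) = (f (F q d h).1, f (F q d h).2) := by
  simp [F, map_ofNat f]

lemma map_H (f : R →+* R') (q : R) (d : R × R × R) (p : ℕ) :
    H (f q) (f d.1, f d.2.1, f d.2.2) p = (f (H q d p).1, f (H q d p).2) := by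
  induction p with
  | zero => simp [H]
  | succ p ih => rw [H, ih, map_F]; simp [H, S, map_ofNat f]

lemma map_Ptot (f : R →+* R') (q : R) (w : List Bool) (p : ℕ) :
    Ptot (f q) w p = f (Ptot q w p) := by
  rw [Ptot, map_D, map_H, map_F, Ptot]
  simp [map_ofNat f]

end Ring

end Pool.Agent.Ch3
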