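import Pool.Agent.Ch3.Defs
import Pool.Agent.Ch3.Stmt

/-!
# Planarity of the strips graph
-/

namespace Pool.Agent.Ch3

/-- straight segment -/
noncomputable def seg (a b : ℂ) : Path a b where
  toFun t := a + (t : ℝ) * (b - a)
  continuous_toFun := by fun_prop
  source' := by simp
  target' := by simp

lemma seg_apply (a b : ℂ) (t : unitInterval) : seg a b t = a + ((t : ℝ) : ℂ) * (b - a) := rfl

section Abstract

variable {W : Type} (col dep : W → ℕ) (M : ℕ) (Sl : W → W → Prop)

/-- types of oriented edges -/
inductive ET : Bool ⊕ W → Bool ⊕ W → Prop
  | top (v : W) (h : dep v = 0) : ET (.inl false) (.inr v)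
  | bot (v : W) (h : dep v = M) : ET (.inl true) (.inr v)
  | vert (u v : W) (h : col v = col u) (h' : dep u < dep v)
      (h'' : ∀ w, col w = col u → dep w ≤ dep u ∨ dep v ≤ dep w) : ET (.inr u) (.inr v)
  | slant (u v : W) (h : Sl u v) : ET (.inr u) (.inr v)

/-- x-coordinates -/
def px : Bool ⊕ W → ℝ
  | .inl _ => 0
  | .inr v => col v

/-- y-coordinates -/
def py : Bool ⊕ W → ℝ
  | .inl false => 1
  | .inl true => -(M : ℝ) - 1
  | .inr v => -(dep v : ℝ)

variable {col dep M Sl}

lemma lemA (hinj : ∀ u v, col u = col v → dep u = dep v → u = v) (hM : ∀ v, dep v ≤ M)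
    (hcol : ∀ u v, Sl u v → col v = col u + 1)
    {u v w : Bool ⊕ W} (hE : ET col dep M Sl u v) (t : ℝ) (h0 : 0 ≤ t) (h1 : t ≤ 1)
    (hx : px col u + t * (px col v - px col u) = px col w)
    (hy : py dep M u + t * (py dep M v - py dep M u) = py dep M w) : w = u ∨ w = v := by
  have hM0 : (0:ℝ) ≤ M := Nat.cast_nonneg M
  cases hE with
  | top v h =>
    simp only [px, py, h] at hx hy
    rcases w with b | w
    · cases b
      · left; rfl
      · simp only [py] at hy
        norm_num at hy
        nlinarith
    · right
      simp only [px, py] at hx hy
      have h2 : (0:ℝ) ≤ dep w := Nat.cast_nonneg _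
      push_cast at hy
      have ht : t = 1 := by linarith
      subst ht
      have h3 : dep w = 0 := by
        have : (dep w : ℝ) = 0 := by linarith
        exact_mod_cast this
      have h4 : col w = col v := by
        have : (col w : ℝ) = col v := by linarith
        exact_mod_cast this
      rw [hinj w v h4 (by rw [h3, h])]
  | bot v h =>
    simp only [px, py, h] at hx hy
    rcases w with b | w
    · cases b
      · simp only [py] at hy
        exfalso
        nlinarith
      · left; rfl
    · right
      simp only [px, py] at hx hy
      have h2 : (dep w : ℝ) ≤ M := by exact_mod_cast hM w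
      have ht : t = 1 := by nlinarith
      subst ht
      have h3 : dep w = M := by
        have : (dep w : ℝ) = M := by linarith
        exact_mod_cast this
      have h4 : col w = col v := by
        have : (col w : ℝ) = col v := by linarith
        exact_mod_cast this
      rw [hinj w v h4 (by rw [h3, h])]
  | vert u v h h' h'' =>
    simp only [px, py, h] at hx hy
    have hu : (dep u : ℝ) < dep v := by exact_mod_cast h'
    have hu0 : (0:ℝ) ≤ dep u := Nat.cast_nonneg _
    have hvM : (dep v : ℝ) ≤ M := by exact_mod_cast hM v
    rcases w with b | w
    · exfalso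
      cases b
      · simp only [py] at hy
        nlinarith
      · simp only [py] at hy
        nlinarith
    · simp only [px, py] at hx hy
      have h4 : col w = col u := by
        have : (col w : ℝ) = col u := by linarith
        exact_mod_cast this
      rcases h'' w h4 with h5 | h5
      · left
        have h6 : (dep w : ℝ) ≤ dep u := by exact_mod_cast h5
        have h7 : (dep w : ℝ) = dep u := by nlinarith
        have h8 : dep w = dep u := by exact_mod_cast h7
        rw [hinj w u h4 h8]
      · right
        have h6 : (dep v : ℝ) ≤ dep w := by exact_mod_cast h5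
        have h7 : (dep w : ℝ) = dep v := by nlinarith
        have h8 : dep w = dep v := by exact_mod_cast h7
        rw [hinj w v (h4.trans h.symm) h8]
  | slant u v h =>
    have hc := hcol u v h
    simp only [px, py, hc] at hx hy
    have hu0 : (0:ℝ) ≤ dep u := Nat.cast_nonneg _
    have hv0 : (0:ℝ) ≤ dep v := Nat.cast_nonneg _
    have huM : (dep u : ℝ) ≤ M := by exact_mod_cast hM u
    have hvM : (dep v : ℝ) ≤ M := by exact_mod_cast hM v
    rcases w with b | w
    · exfalso
      cases b
      · simp only [py] at hy
        nlinarith
      · simp only [py] at hy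
        nlinarith
    · simp only [px, py] at hx hy
      push_cast at hx
      have h4 : (col u : ℝ) + t = col w := by linarith
      have h5 : col u ≤ col w := by
        have : (col u : ℝ) ≤ col w := by linarith
        exact_mod_cast this
      have h6 : col w ≤ col u + 1 := by
        have : (col w : ℝ) ≤ col u + 1 := by linarith
        exact_mod_cast this
      rcases Nat.eq_or_lt_of_le h5 with h7 | h7
      · left
        have ht : t = 0 := by
          rw [← h7] at h4; linarith
        subst ht
        have h8 : dep w = dep u := by
          have : (dep w : ℝ) = dep u := by linarith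
          exact_mod_cast this
        rw [hinj w u h7.symm h8]
      · right
        have h9 : col w = col u + 1 := by omega
        have ht : t = 1 := by
          rw [h9] at h4; push_cast at h4; linarith
        subst ht
        have h8 : dep w = dep v := by
          have : (dep w : ℝ) = dep v := by linarith
          exact_mod_cast this
        rw [hinj w v (by omega) h8]

/-- the range of the y-coordinate on the edges -/
lemma y_top (v : W) (h : dep v = 0) (t : ℝ) :
    py dep M (.inl false) + t * (py dep M (.inr v) - py dep M (.inl false)) = 1 - t := by
  simp only [py, h]; norm_num; ring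

lemma y_bot (v : W) (h : dep v = M) (t : ℝ) :
    py dep M (.inl true) + t * (py dep M (.inr v) - py dep M (.inl true)) = -(M:ℝ) - 1 + t := by
  simp only [py, h]; ring

lemma y_mid (hM : ∀ v, dep v ≤ M) (u v : W) (t : ℝ) (h0 : 0 ≤ t) (h1 : t ≤ 1) :
    -(M : ℝ) ≤ py dep M (.inr u) + t * (py dep M (.inr v) - py dep M (.inr u)) ∧
    py dep M (.inr u) + t * (py dep M (.inr v) - py dep M (.inr u)) ≤ 0 := by
  have hu0 : (0:ℝ) ≤ dep u := Nat.cast_nonneg _
  have hv0 : (0:ℝ) ≤ dep v := Nat.cast_nonneg _
  have huM : (dep u : ℝ) ≤ M := by exact_mod_cast hM u
  have hvM : (dep v : ℝ) ≤ M := by exact_mod_cast hM v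
  simp only [py]
  constructor <;> nlinarith

/-- the point with parameter `t` is the vertex `w` -/
def IsV (col dep : W → ℕ) (M : ℕ) (u v : Bool ⊕ W) (t : ℝ) : Prop :=
  ∃ w : Bool ⊕ W, px col u + t * (px col v - px col u) = px col w ∧
    py dep M u + t * (py dep M v - py dep M u) = py dep M w

lemma isV_one (u v : Bool ⊕ W) : IsV col dep M u v 1 := ⟨v, by ring, by ring⟩
lemma isV_zero (u v : Bool ⊕ W) : IsV col dep M u v 0 := ⟨u, by ring, by ring⟩

lemma IsV.congr {u v x y : Bool ⊕ W} {t t' : ℝ} (h : IsV col dep M x y t')
    (hx : px col u + t * (px col v - px col u) = px col x + t' * (px col y - px col x))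
    (hy : py dep M u + t * (py dep M v - py dep M u) = py dep M x + t' * (py dep M y - py dep M x)) :
    IsV col dep M u v t := by
  obtain ⟨w, h1, h2⟩ := h
  exact ⟨w, hx.trans h1, hy.trans h2⟩

lemma lemB (hinj : ∀ u v, col u = col v → dep u = dep v → u = v) (hM : ∀ v, dep v ≤ M)
    (hcol : ∀ u v, Sl u v → col v = col u + 1)
    (hchain : ∀ u v x y, Sl u v → Sl x y → col u = col x →
      (dep u ≤ dep x ∧ dep v ≤ dep y) ∨ (dep x ≤ dep u ∧ dep y ≤ dep v))
    {u v x y : Bool ⊕ W} (hE : ET col dep M Sl u v) (hE' : ET col dep M Sl x y)
    (hne : ¬ (u = x ∧ v = y)) (t t' : ℝ) (h0 : 0 ≤ t) (h1 : t ≤ 1) (h0' : 0 ≤ t') (h1' : t' ≤ 1)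
    (hx : px col u + t * (px col v - px col u) = px col x + t' * (px col y - px col x))
    (hy : py dep M u + t * (py dep M v - py dep M u) =
      py dep M x + t' * (py dep M y - py dep M x)) :
    IsV col dep M u v t := by
  have hM0 : (0:ℝ) ≤ M := Nat.cast_nonneg M
  cases hE with
  | top v h =>
    have e1 : t = 1 ∨ x = .inl false := by
      cases hE' with
      | top y h' => right; rfl
      | bot y h' =>
        left
        rw [y_top v h, y_bot y h'] at hy
        linarith
      | vert x y _ _ _ =>
        left
        rw [y_top v h] at hy
        have := y_mid hM x y t' h0' h1'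
        linarith
      | slant x y _ =>
        left
        rw [y_top v h] at hy
        have := y_mid hM x y t' h0' h1'
        linarith
    rcases e1 with rfl | rfl
    · exact isV_one _ _
    · cases hE' with
      | top y h' =>
        rw [y_top v h, y_top y h'] at hy
        have ht : t = t' := by linarith
        subst ht
        rcases eq_or_lt_of_le h0 with h3 | h3
        · subst h3
          exact isV_zero _ _
        · exfalso
          simp only [px] at hx
          have h4 : (col v : ℝ) = col y := by
            have : t * (col v - col y : ℝ) = 0 := by linarith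
            rcases mul_eq_zero.mp this with h5 | h5
            · linarith
            · linarith
          have h5 : col v = col y := by exact_mod_cast h4
          exact hne ⟨rfl, by rw [hinj v y h5 (by rw [h, h'])]⟩
  | bot v h =>
    have e1 : t = 1 ∨ x = .inl true := by
      cases hE' with
      | bot y h' => right; rfl
      | top y h' =>
        left
        rw [y_bot v h, y_top y h'] at hy
        linarith
      | vert x y _ _ _ =>
        left
        rw [y_bot v h] at hy
        have := y_mid hM x y t' h0' h1'
        linarith
      | slant x y _ =>
        left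
        rw [y_bot v h] at hy
        have := y_mid hM x y t' h0' h1'
        linarith
    rcases e1 with rfl | rfl
    · exact isV_one _ _
    · cases hE' with
      | bot y h' =>
        rw [y_bot v h, y_bot y h'] at hy
        have ht : t = t' := by linarith
        subst ht
        rcases eq_or_lt_of_le h0 with h3 | h3
        · subst h3
          exact isV_zero _ _
        · exfalso
          simp only [px] at hx
          have h4 : (col v : ℝ) = col y := by
            have : t * (col v - col y : ℝ) = 0 := by linarith
            rcases mul_eq_zero.mp this with h5 | h5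
            · linarith
            · linarith
          have h5 : col v = col y := by exact_mod_cast h4
          exact hne ⟨rfl, by rw [hinj v y h5 (by rw [h, h'])]⟩
  | vert u v h h' h'' =>
    cases hE' with
    | top y g =>
      have := y_mid hM u v t h0 h1
      rw [y_top y g] at hy
      have ht : t' = 1 := by linarith
      subst ht
      exact (isV_one _ _).congr hx (hy.trans (y_top y g 1).symm)
    | bot y g =>
      have := y_mid hM u v t h0 h1
      rw [y_bot y g] at hy
      have ht : t' = 1 := by linarith
      subst ht
      exact (isV_one _ _).congr hx (hy.trans (y_bot y g 1).symm)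
    | vert x y g g' g'' =>
      simp only [px, py, h, g] at hx hy
      have e0 : col x = col u := by
        have : (col x : ℝ) = col u := by linarith
        exact_mod_cast this
      have hu : (dep u : ℝ) < dep v := by exact_mod_cast h'
      have hx' : (dep x : ℝ) < dep y := by exact_mod_cast g'
      rcases h'' x e0 with e1 | e1
      · rcases h'' y (g.trans e0) with e2 | e2
        · -- dep y ≤ dep u : the point is u
          have e3 : (dep y : ℝ) ≤ dep u := by exact_mod_cast e2
          have ht : t = 0 := by nlinarith
          subst ht
          exact isV_zero _ _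
        · -- nested
          exfalso
          have e1' : (dep x : ℝ) ≤ dep u := by exact_mod_cast e1
          rcases g'' u e0.symm with e3 | e3
          · rcases g'' v (h.trans e0.symm) with e4 | e4
            · omega
            · exact hne ⟨by rw [hinj u x e0.symm (le_antisymm e3 e1)],
                by rw [hinj v y (by rw [h, g, e0]) (le_antisymm e2 e4)]⟩
          · omega
      · have e3 : (dep v : ℝ) ≤ dep x := by exact_mod_cast e1
        have ht : t = 1 := by nlinarith
        subst ht
        exact isV_one _ _
    | slant x y g =>
      have hc := hcol x y g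
      have hx2 := hx
      simp only [px, h, hc] at hx2
      push_cast at hx2
      have h4 : (col x : ℝ) + t' = col u := by linarith
      have h5 : col x ≤ col u := by
        have : (col x : ℝ) ≤ col u := by linarith
        exact_mod_cast this
      have h6 : col u ≤ col x + 1 := by
        have : (col u : ℝ) ≤ col x + 1 := by linarith
        exact_mod_cast this
      rcases Nat.eq_or_lt_of_le h5 with h7 | h7
      · have ht : t' = 0 := by
          rw [h7] at h4; linarith
        subst ht
        exact (isV_zero _ _).congr hx hy
      · have h9 : col u = col x + 1 := by omega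
        have ht : t' = 1 := by
          rw [h9] at h4; push_cast at h4; linarith
        subst ht
        exact (isV_one _ _).congr hx hy
  | slant u v h =>
    have hc := hcol u v h
    cases hE' with
    | top y g =>
      have := y_mid hM u v t h0 h1
      rw [y_top y g] at hy
      have ht : t' = 1 := by linarith
      subst ht
      exact (isV_one _ _).congr hx (hy.trans (y_top y g 1).symm)
    | bot y g =>
      have := y_mid hM u v t h0 h1
      rw [y_bot y g] at hy
      have ht : t' = 1 := by linarith
      subst ht
      exact (isV_one _ _).congr hx (hy.trans (y_bot y g 1).symm)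
    | vert x y g g' g'' =>
      simp only [px, hc, g] at hx
      push_cast at hx
      have h4 : (col u : ℝ) + t = col x := by linarith
      have h5 : col u ≤ col x := by
        have : (col u : ℝ) ≤ col x := by linarith
        exact_mod_cast this
      have h6 : col x ≤ col u + 1 := by
        have : (col x : ℝ) ≤ col u + 1 := by linarith
        exact_mod_cast this
      rcases Nat.eq_or_lt_of_le h5 with h7 | h7
      · have ht : t = 0 := by
          rw [h7] at h4; linarith
        subst ht
        exact isV_zero _ _
      · have h9 : col x = col u + 1 := by omega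
        have ht : t = 1 := by
          rw [h9] at h4; push_cast at h4; linarith
        subst ht
        exact isV_one _ _
    | slant x y g =>
      have hc' := hcol x y g
      simp only [px, py, hc, hc'] at hx hy
      push_cast at hx
      have h4 : (col u : ℝ) + t = col x + t' := by linarith
      rcases lt_trichotomy (col u) (col x) with h5 | h5 | h5
      · have h6 : (col u : ℝ) + 1 ≤ col x := by exact_mod_cast h5
        have ht : t = 1 := by linarith
        subst ht
        exact isV_one _ _
      · have ht : t = t' := by rw [h5] at h4; linarith
        subst ht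
        rcases eq_or_lt_of_le h0 with h7 | h7
        · subst h7
          exact isV_zero _ _
        rcases eq_or_lt_of_le h1 with h8 | h8
        · subst h8
          exact isV_one _ _
        exfalso
        rcases hchain u v x y h g h5 with ⟨e1, e2⟩ | ⟨e1, e2⟩
        · have e1' : (dep u : ℝ) ≤ dep x := by exact_mod_cast e1
          have e2' : (dep v : ℝ) ≤ dep y := by exact_mod_cast e2
          have e3 : (1 - t) * ((dep x : ℝ) - dep u) + t * ((dep y : ℝ) - dep v) = 0 := by
            linarith
          have e4 : (dep u : ℝ) = dep x := by
            have : 0 ≤ t * ((dep y : ℝ) - dep v) := mul_nonneg h7.le (by linarith)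
            have : (1 - t) * ((dep x : ℝ) - dep u) ≤ 0 := by linarith
            have h9 : 0 < 1 - t := by linarith
            nlinarith
          have e5 : (dep v : ℝ) = dep y := by
            rw [e4] at e3
            have : t * ((dep y : ℝ) - dep v) = 0 := by linarith
            rcases mul_eq_zero.mp this with h9 | h9
            · linarith
            · linarith
          exact hne ⟨by rw [hinj u x h5 (by exact_mod_cast e4)],
            by rw [hinj v y (by rw [hc, hc', h5]) (by exact_mod_cast e5)]⟩
        · have e1' : (dep x : ℝ) ≤ dep u := by exact_mod_cast e1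
          have e2' : (dep y : ℝ) ≤ dep v := by exact_mod_cast e2
          have e3 : (1 - t) * ((dep u : ℝ) - dep x) + t * ((dep v : ℝ) - dep y) = 0 := by
            linarith
          have e4 : (dep u : ℝ) = dep x := by
            have : 0 ≤ t * ((dep v : ℝ) - dep y) := mul_nonneg h7.le (by linarith)
            have : (1 - t) * ((dep u : ℝ) - dep x) ≤ 0 := by linarith
            have h9 : 0 < 1 - t := by linarith
            nlinarith
          have e5 : (dep v : ℝ) = dep y := by
            rw [e4] at e3
            have : t * ((dep v : ℝ) - dep y) = 0 := by linarith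
            rcases mul_eq_zero.mp this with h9 | h9
            · linarith
            · linarith
          exact hne ⟨by rw [hinj u x h5 (by exact_mod_cast e4)],
            by rw [hinj v y (by rw [hc, hc', h5]) (by exact_mod_cast e5)]⟩
      · have h6 : (col x : ℝ) + 1 ≤ col u := by exact_mod_cast h5
        have ht : t = 0 := by linarith
        subst ht
        exact isV_zero _ _

theorem planar_of {G : SimpleGraph (Bool ⊕ W)}
    (hinj : ∀ u v, col u = col v → dep u = dep v → u = v) (hM : ∀ v, dep v ≤ M)
    (hcol : ∀ u v, Sl u v → col v = col u + 1)
    (hchain : ∀ u v x y, Sl u v → Sl x y → col u = col x →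
      (dep u ≤ dep x ∧ dep v ≤ dep y) ∨ (dep x ≤ dep u ∧ dep y ≤ dep v))
    (hadj : ∀ a b, G.Adj a b → ET col dep M Sl a b ∨ ET col dep M Sl b a) : PlanarG G := by
  have hM0 : (0:ℝ) ≤ M := Nat.cast_nonneg M
  set f : Bool ⊕ W → ℂ := fun v => ⟨px col v, py dep M v⟩ with hf
  have hfinj : Function.Injective f := by
    intro a b hab
    have h1 : px col a = px col b := congrArg Complex.re hab
    have h2 : py dep M a = py dep M b := congrArg Complex.im hab
    rcases a with a | a <;> rcases b with b | b
    · cases a <;> cases b
      · rfl
      · simp only [py] at h2; linarith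
      · simp only [py] at h2; linarith
      · rfl
    · exfalso
      have h3 : (0:ℝ) ≤ dep b := Nat.cast_nonneg _
      have h4 : (dep b : ℝ) ≤ M := by exact_mod_cast hM b
      cases a
      · simp only [py] at h2; linarith
      · simp only [py] at h2; linarith
    · exfalso
      have h3 : (0:ℝ) ≤ dep a := Nat.cast_nonneg _
      have h4 : (dep a : ℝ) ≤ M := by exact_mod_cast hM a
      cases b
      · simp only [py] at h2; linarith
      · simp only [py] at h2; linarith
    · simp only [px, py] at h1 h2
      have h3 : col a = col b := by exact_mod_cast h1
      have h4 : dep a = dep b := by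
        have : (dep a : ℝ) = dep b := by linarith
        exact_mod_cast this
      rw [hinj a b h3 h4]
  have hre : ∀ (u v : Bool ⊕ W) (t : unitInterval), (seg (f u) (f v) t).re =
      px col u + (t : ℝ) * (px col v - px col u) := by
    intro u v t
    rw [seg_apply]
    simp [hf]
  have him : ∀ (u v : Bool ⊕ W) (t : unitInterval), (seg (f u) (f v) t).im =
      py dep M u + (t : ℝ) * (py dep M v - py dep M u) := by
    intro u v t
    rw [seg_apply]
    simp [hf]
  refine ⟨f, fun u v => seg (f u) (f v), hfinj, ?_, ?_⟩
  · intro u v huv
    refine ⟨?_, ?_⟩
    · intro t t' h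
      rw [seg_apply, seg_apply] at h
      have h1 : f v - f u ≠ 0 := by
        intro h2
        exact huv.ne (hfinj (sub_eq_zero.mp h2).symm)
      have h2 : ((t : ℝ) : ℂ) = ((t' : ℝ) : ℂ) := by
        have := add_left_cancel h
        exact mul_right_cancel₀ h1 this
      exact Subtype.ext (by exact_mod_cast h2)
    · intro t w h
      have hx := congrArg Complex.re h
      have hy := congrArg Complex.im h
      rw [hre] at hx
      rw [him] at hy
      simp only [hf] at hx hy
      rcases hadj u v huv with hE | hE
      · exact lemA hinj hM hcol hE t t.2.1 t.2.2 hx hy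
      · exact (lemA hinj hM hcol hE (1 - t) (by linarith [t.2.2]) (by linarith [t.2.1])
          (by rw [← hx]; ring) (by rw [← hy]; ring)).symm
  · intro u v x y huv hxy hne a b hab
    have hx := congrArg Complex.re hab
    have hy := congrArg Complex.im hab
    rw [hre, hre] at hx
    rw [him, him] at hy
    have n1 : ¬ (u = x ∧ v = y) := by
      rintro ⟨rfl, rfl⟩; exact hne rfl
    have n2 : ¬ (u = y ∧ v = x) := by
      rintro ⟨rfl, rfl⟩; exact hne Sym2.eq_swap
    have key : IsV col dep M u v a := by
      have a0 := a.2.1
      have a1 := a.2.2
      have b0 := b.2.1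
      have b1 := b.2.2
      rcases hadj u v huv with hE | hE <;> rcases hadj x y hxy with hE' | hE'
      · exact lemB hinj hM hcol hchain hE hE' n1 a b a0 a1 b0 b1 hx hy
      · exact lemB hinj hM hcol hchain hE hE' n2 a (1 - b) a0 a1 (by linarith) (by linarith)
          (by rw [hx]; ring) (by rw [hy]; ring)
      · have := lemB hinj hM hcol hchain hE hE' (fun h => n2 h.symm) (1 - a) b (by linarith)
          (by linarith) b0 b1 (by rw [← hx]; ring) (by rw [← hy]; ring)
        exact this.congr (by ring) (by ring)
      · have := lemB hinj hM hcol hchain hE hE' (fun h => n1 h.symm) (1 - a) (1 - b)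
          (by linarith) (by linarith) (by linarith) (by linarith)
          (by linear_combination hx) (by linear_combination hy)
        exact this.congr (by ring) (by ring)
    obtain ⟨w, h1, h2⟩ := key
    refine ⟨w, ?_⟩
    apply Complex.ext
    · rw [hre, h1]
    · rw [him, h2]

end Abstract

variable (w : List Bool) (p : ℕ)

/-- column of a strip vertex -/
def scol : Fin p × Strip w → ℕ
  | (i, .inl _) => 2 * i.val
  | (i, .inr _) => 2 * i.val + 1

/-- depth of a strip vertex -/
def sdep : Fin p × Strip w → ℕ
  | (_, .inl l) => l.val * nb w
  | (_, .inr r) => r.val * na w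

/-- slanted edges -/
def ssl : Fin p × Strip w → Fin p × Strip w → Prop
  | (i, .inl l), (j, .inr r) => i = j ∧ K w l.val r.val
  | (i, .inr r), (j, .inl l) => i.val + 1 = j.val ∧ r.val = 0 ∧ l.val = 0
  | _, _ => False

theorem planar (ha : 0 < na w) (hb : 0 < nb w) : PlanarG (G w p) := by
  apply planar_of (col := scol w p) (dep := sdep w p) (M := na w * nb w) (Sl := ssl w p)
  · rintro ⟨i, l | r⟩ ⟨j, l' | r'⟩ h1 h2
    · simp only [scol, sdep] at h1 h2
      have h3 : i = j := Fin.ext (by omega)
      have h4 : l = l' := Fin.ext (Nat.eq_of_mul_eq_mul_right hb h2)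
      rw [h3, h4]
    · simp only [scol] at h1; omega
    · simp only [scol] at h1; omega
    · simp only [scol, sdep] at h1 h2
      have h3 : i = j := Fin.ext (by omega)
      have h4 : r = r' := Fin.ext (Nat.eq_of_mul_eq_mul_right ha h2)
      rw [h3, h4]
  · rintro ⟨i, l | r⟩
    · exact Nat.mul_le_mul_right _ (Nat.lt_succ_iff.mp l.2)
    · simp only [sdep]
      rw [mul_comm (na w)]
      exact Nat.mul_le_mul_right _ (Nat.lt_succ_iff.mp r.2)
  · rintro ⟨i, l | r⟩ ⟨j, l' | r'⟩ h
    · exact h.elim
    · obtain ⟨rfl, -⟩ := h
      rfl
    · obtain ⟨h, -⟩ := h
      simp only [scol]; omega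
    · exact h.elim
  · rintro ⟨i, l | r⟩ ⟨j, l' | r'⟩ ⟨i2, l2 | r2⟩ ⟨j2, l2' | r2'⟩ h h' hc
    all_goals first
      | exact h.elim
      | exact h'.elim
      | skip
    · obtain ⟨-, h⟩ := h
      obtain ⟨-, h'⟩ := h'
      simp only [sdep]
      rcases K_chain w _ _ _ _ h h' with ⟨e1, e2⟩ | ⟨e1, e2⟩
      · left; exact ⟨Nat.mul_le_mul_right _ e1, Nat.mul_le_mul_right _ e2⟩
      · right; exact ⟨Nat.mul_le_mul_right _ e1, Nat.mul_le_mul_right _ e2⟩
    · simp only [scol] at hc; omega
    · simp only [scol] at hc; omega
    · obtain ⟨-, h1, h2⟩ := h
      obtain ⟨-, h1', h2'⟩ := h'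
      left
      simp [sdep, h1, h2, h1', h2']
  · have key : ∀ a b, rel w p a b → ET (scol w p) (sdep w p) (na w * nb w) (ssl w p) a b := by
      intro a b h
      rcases a with a | ⟨i, l | r⟩
      · rcases b with b | ⟨j, l' | r'⟩
        · cases a <;> exact h.elim
        · cases a
          · refine ET.top _ ?_
            have h' : l'.val = 0 := h
            simp [sdep, h']
          · refine ET.bot _ ?_
            have h' : l'.val = na w := h
            simp [sdep, h']
        · cases a
          · refine ET.top _ ?_
            have h' : r'.val = 0 := h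
            simp [sdep, h']
          · refine ET.bot _ ?_
            have h' : r'.val = nb w := h
            simp [sdep, h', mul_comm]
      · rcases b with b | ⟨j, l' | r'⟩
        · exact h.elim
        · obtain ⟨rfl, h⟩ := h
          refine ET.vert _ _ rfl ?_ ?_
          · simp only [sdep]
            exact Nat.mul_lt_mul_of_pos_right (by omega) hb
          · rintro ⟨j, l2 | r2⟩ hc
            · simp only [sdep]
              rcases Nat.lt_or_ge l.val l2.val with h3 | h3
              · right; exact Nat.mul_le_mul_right _ (by omega)
              · left; exact Nat.mul_le_mul_right _ h3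
            · simp only [scol] at hc; omega
        · obtain ⟨rfl, h⟩ := h
          exact ET.slant _ _ ⟨rfl, h⟩
      · rcases b with b | ⟨j, l' | r'⟩
        · exact h.elim
        · exact ET.slant _ _ h
        · obtain ⟨rfl, h⟩ := h
          refine ET.vert _ _ rfl ?_ ?_
          · simp only [sdep]
            exact Nat.mul_lt_mul_of_pos_right (by omega) ha
          · rintro ⟨j, l2 | r2⟩ hc
            · simp only [scol] at hc; omega
            · simp only [sdep]
              rcases Nat.lt_or_ge r.val r2.val with h3 | h3
              · right; exact Nat.mul_le_mul_right _ (by omega)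
              · left; exact Nat.mul_le_mul_right _ h3
    intro a b h
    rw [G_adj] at h
    exact h.imp (key a b) (key b a)

end Pool.Agent.Ch3
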