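import Pool.Agent.Ch3.Stmt

/-!
# Transport along an equivalence of vertex sets
-/

namespace Pool.Agent.Ch3

variable {V : Type} {n : ℕ}

lemma transport_conn [Fintype V] (e : V ≃ Fin n) (G : SimpleGraph V) (h : ThreeConn G) :
    ThreeConn (G.comap e.symm) := by
  classical
  refine ⟨?_, ?_⟩
  · have h1 := h.1
    have h2 := Fintype.card_congr e
    rw [← h2]; exact h1
  · intro S hS
    have h1 := h.2 (S.map e.symm.toEmbedding) (by rw [Finset.card_map]; exact hS)
    have iso : (G.comap e.symm).induce ((↑S : Set (Fin n))ᶜ) ≃g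
        G.induce ((↑(S.map e.symm.toEmbedding) : Set V)ᶜ) := by
      refine ⟨e.symm.subtypeEquiv ?_, ?_⟩
      · intro a
        simp
      · rintro ⟨a, ha⟩ ⟨b, hb⟩
        simp
    exact (iso.connected_iff).mpr h1

lemma transport_planar (e : V ≃ Fin n) (G : SimpleGraph V) (h : PlanarG G) :
    PlanarG (G.comap e.symm) := by
  obtain ⟨f, γ, h1, h2, h3⟩ := h
  refine ⟨f ∘ e.symm, fun u v => γ (e.symm u) (e.symm v), h1.comp e.symm.injective, ?_, ?_⟩
  · intro u v huv
    obtain ⟨h4, h5⟩ := h2 (e.symm u) (e.symm v) huv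
    refine ⟨h4, ?_⟩
    intro t w hw
    rcases h5 t (e.symm w) hw with h6 | h6
    · left; exact e.symm.injective h6
    · right; exact e.symm.injective h6
  · intro u v x y huv hxy hne a b hab
    obtain ⟨w, hw⟩ := h3 (e.symm u) (e.symm v) (e.symm x) (e.symm y) huv hxy (by
      intro h
      apply hne
      have := congrArg (Sym2.map e) h
      simpa using this) a b hab
    exact ⟨e w, by simpa using hw⟩

lemma transport_poly (e : V ≃ Fin n) (G : SimpleGraph V) (P : Polynomial ℂ)
    (h : IsChromaticPoly G P) : IsChromaticPoly (G.comap e.symm) P := by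
  intro k
  rw [h k]
  congr 1
  apply Nat.card_congr
  refine ⟨fun c => ⟨fun v => c (e.symm v), ?_⟩, fun c => ⟨fun v => c (e v), ?_⟩, ?_, ?_⟩
  · intro a b hab
    exact c.map_rel hab
  · intro a b hab
    apply c.map_rel
    simpa using hab
  · intro c
    ext v
    simp
  · intro c
    ext v
    simp

theorem mem_rootSet [Fintype V] (G : SimpleGraph V) (h1 : ThreeConn G) (h2 : PlanarG G)
    (P : Polynomial ℂ) (h3 : IsChromaticPoly G P) (q : ℂ) (hq : P.eval q = 0) : q ∈ rootSet :=
  ⟨Fintype.card V, G.comap (Fintype.equivFin V).symm, transport_conn _ G h1,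
    transport_planar _ G h2, P, transport_poly _ G P h3, hq⟩

end Pool.Agent.Ch3
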