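import Pool.Agent.Ch3.Ana2
import Pool.Agent.Ch3.Count2
import Pool.Agent.Ch3.Conn
import Pool.Agent.Ch3.Planar
import Pool.Agent.Ch3.Transport

/-!
# Density of the chromatic roots outside two discs
-/

namespace Pool.Agent.Ch3

lemma isChromaticPoly_G (w : List Bool) (p : ℕ) :
    IsChromaticPoly (G w (p + 1)) (Ptot (Polynomial.X : Polynomial ℂ) w p) := by
  intro k
  have h1 : (Ptot (Polynomial.X : Polynomial ℂ) w p).eval (k : ℂ) = Ptot (k : ℂ) w p := by
    have := map_Ptot (Polynomial.evalRingHom (k : ℂ)) (Polynomial.X : Polynomial ℂ) w p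
    simp only [Polynomial.coe_evalRingHom, Polynomial.eval_X] at this
    exact this.symm
  rw [h1]
  have h2 := natcard_colorings (α := Fin k) w p
  rw [Fintype.card_fin] at h2
  rw [← h2]
  congr 1
  apply Nat.card_congr
  refine ⟨fun c => ⟨fun v => c.1 v, ?_⟩, fun c => ⟨fun v => c v, ?_⟩, ?_, ?_⟩
  · intro a b hab
    rw [G_adj] at hab
    rcases hab with h | h
    · exact c.2 a b h
    · exact fun e => c.2 b a h e.symm
  · intro a b hab
    have : (G w (p + 1)).Adj a b := by
      rw [G_adj]; exact Or.inl hab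
    exact c.map_rel this
  · intro c
    rfl
  · intro c
    rfl

theorem dense_outside (z : ℂ) (h1 : 1 < ‖z - 1‖) (h2 : 1 < ‖z - 2‖) : z ∈ closure rootSet := by
  rw [Metric.mem_closure_iff]
  intro ε hε
  obtain ⟨m, L, p, q, hm, hL, hp, hq, h0⟩ := main_zero (z - 1) h1
    (by have : z - 1 - 1 = z - 2 := by ring
        rw [this]; exact h2) ε hε
  refine ⟨q, ?_, ?_⟩
  · refine mem_rootSet (G (wd m L) (p + 1)) (threeConn (by omega)) (planar _ _ ?_ ?_)
      (Ptot (Polynomial.X : Polynomial ℂ) (wd m L) p) (isChromaticPoly_G _ _) q ?_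
    · rw [na_wd]; positivity
    · rw [nb_wd]; exact hL
    · have := map_Ptot (Polynomial.evalRingHom q) (Polynomial.X : Polynomial ℂ) (wd m L) p
      simp only [Polynomial.coe_evalRingHom, Polynomial.eval_X] at this
      rw [← this, h0]
  · rw [dist_comm, dist_eq_norm]
    have : q - z = q - (z - 1 + 1) := by ring
    rw [this]
    exact hq

end Pool.Agent.Ch3
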